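import Pool.Agent.H91.FR.QEG

/-!
# Components over a chain of charts, and the change of charts

`Cmp`: a finite family of own jets; `qC`: the joint quantity. `CCh`: the change of charts for such a
family. `jet_all`: all jets of the places of slope one, of all orders, over the charts of all windows
near the given one, are few bits given the velocities over one chart and the record at a later
window (small steps).
-/

set_option autoImplicit false

namespace Pool.FRJ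

open Finset Real MvPolynomial
open Pool.Agent.H49.Ent Pool.Agent.H32.Dense Pool.STK Pool.KA Pool.KSAT Pool.K2S Pool.PB Pool.GEN
open Pool.S6C Pool.RCD Pool.LA91
open Pool.GRD (LbP)

variable {m : ℕ} {U U' U₀ U₁ : Type} {α β γ : ∀ J : ℕ, Fam m J → Type}
  {f : ∀ (J : ℕ) (F : Fam m J), F.Ω → α J F} {g : ∀ (J : ℕ) (F : Fam m J), F.Ω → β J F}
  {y : ∀ (J : ℕ) (F : Fam m J), F.Ω → γ J F} {S : PCl m}

/-- A quantity which is few bits given the others, can be used. -/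
theorem few_cut
    (hpos : ∀ (τ : ℝ) (J : ℕ) (F : Fam m J) (A : F.Ω → Prop), S.St τ J F A → 0 < Pe F.p A)
    {Q₀ : Qt m U₀} {Q₁ : Qt m U₁} {Q' : Qt m U'} (x : Exs S Q₁) (h0 : Few S f g y Q₀ Q₁)
    (hf : Few S f g y (Q₀.prod Q₁) Q') : Few S f g y Q₀ Q' := by
  intro h hh
  obtain ⟨e1, he1, H1⟩ := h0 (h / 2) (half_pos hh)
  obtain ⟨e2, he2, H2⟩ := hf (h / 2) (half_pos hh)
  obtain ⟨K₀, M₀, hx⟩ := x (min e1 e2) (lt_min he1 he2)
  refine ⟨min e1 e2, lt_min he1 he2, fun K => ?_⟩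
  refine Bas.mono 0 (((H1 (max K K₀)).and (H2 (max K K₀))).and (hx.and (pos_bas hpos))) ?_
  rintro J - F A ⟨⟨H1, H2⟩, ⟨u₁, hu₁, -⟩, hA⟩ u₀ u' hu₀ hu'
  have hcl := isLaw_cond F.isLaw hA
  obtain ⟨V, z, hz, h1⟩ := H1 u₀ u₁ (Q₀.mono (le_max_left _ _) (min_le_left _ _) hu₀)
    (Q₁.mono (le_max_right _ _) (min_le_left _ _) hu₁)
  obtain ⟨V', z', hz', h2⟩ := H2 (fun ω => (u₀ ω, u₁ ω)) u'
    ⟨Q₀.mono (le_max_left _ _) (min_le_right _ _) hu₀,
      Q₁.mono (le_max_right _ _) (min_le_right _ _) hu₁⟩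
    (Q'.mono (le_max_left _ _) (min_le_right _ _) hu')
  refine ⟨V × V', fun ω => (z ω, z' ω), hz.join hz', ?_⟩
  have h3 := CH_le_add hcl.nonneg u' u₁ (fun ω => (u₀ ω, ((z ω, z' ω), y J F ω)))
  have h4 : CH (Pool.Agent.H49.Ent.cond F.p A True) u₁
      (fun ω => (u₀ ω, ((z ω, z' ω), y J F ω))) ≤
      CH (Pool.Agent.H49.Ent.cond F.p A True) u₁ (fun ω => (u₀ ω, (z ω, y J F ω))) := by
    refine CH_mono_cond hcl.nonneg fun ω ω' _ _ hh => ?_
    simp only [Prod.mk.injEq] at hh ⊢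
    exact ⟨hh.1, hh.2.1.1, hh.2.2⟩
  have h5 : CH (Pool.Agent.H49.Ent.cond F.p A True) u'
      (fun ω => (u₁ ω, (u₀ ω, ((z ω, z' ω), y J F ω)))) ≤
      CH (Pool.Agent.H49.Ent.cond F.p A True) u' (fun ω => ((u₀ ω, u₁ ω), (z' ω, y J F ω))) := by
    refine CH_mono_cond hcl.nonneg fun ω ω' _ _ hh => ?_
    simp only [Prod.mk.injEq] at hh ⊢
    exact ⟨⟨hh.2.1, hh.1⟩, hh.2.2.1.2, hh.2.2.2⟩
  linarith

/-- **Small steps** in a set with small gaps. -/
theorem chain_prop {G : Set ℝ} {P : ℝ → Prop} {lo hi ρ₀ h x₀ : ℝ} (hh : 2 * ρ₀ < h)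
    (hgap : ∀ x, lo ≤ x → x ≤ hi → ∃ v ∈ G, |v - x| ≤ ρ₀) (hx₀ : x₀ ∈ G) (a1 : lo ≤ x₀)
    (a2 : x₀ ≤ hi) (h0 : P x₀)
    (hs : ∀ x ∈ G, ∀ x' ∈ G, lo ≤ x → x ≤ hi → lo ≤ x' → x' ≤ hi → |x - x'| ≤ h → P x → P x') :
    ∀ x ∈ G, lo ≤ x → x ≤ hi → P x := by
  intro x hx b1 b2
  have hh' : 0 < h - 2 * ρ₀ := by linarith
  rcases le_total x x₀ with hxx | hxx
  · obtain ⟨n, hn⟩ := exists_nat_ge ((x₀ - x) / (h - 2 * ρ₀))
    obtain ⟨N, b, c1, c2, c3, c4⟩ := gseq (h := h) hx hh n x₀ hx₀ hxx (by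
      rw [div_le_iff₀ hh'] at hn
      exact hn) (fun z d1 d2 => hgap z (b1.trans d1) (d2.trans a2))
    have key : ∀ t ≤ N, P (b t) := by
      intro t
      induction t with
      | zero => intro _; rw [c1]; exact h0
      | succ t ih =>
        intro ht
        obtain ⟨d1, d2, d3⟩ := c3 t (by omega)
        obtain ⟨e1, e2, e3⟩ := c3 (t + 1) ht
        obtain ⟨f1, f2⟩ := c4 t (by omega)
        refine hs _ d1 _ e1 (by linarith) (by linarith) (by linarith) (by linarith) ?_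
          (ih (by omega))
        rw [abs_le]
        constructor <;> linarith
    have := key N le_rfl
    rwa [c2] at this
  · obtain ⟨n, hn⟩ := exists_nat_ge ((x - x₀) / (h - 2 * ρ₀))
    obtain ⟨N, b, c1, c2, c3, c4⟩ := gseq (h := h) hx₀ hh n x hx hxx (by
      rw [div_le_iff₀ hh'] at hn
      exact hn) (fun z d1 d2 => hgap z (a1.trans d1) (d2.trans b2))
    have key : ∀ t ≤ N, P (b (N - t)) := by
      intro t
      induction t with
      | zero => intro _; rw [Nat.sub_zero, c2]; exact h0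
      | succ t ih =>
        intro ht
        obtain ⟨s, hs'⟩ : ∃ s : ℕ, N - t = s + 1 := ⟨N - t - 1, by omega⟩
        have hs2 : N - (t + 1) = s := by omega
        have ih' := ih (by omega)
        rw [hs'] at ih'
        rw [hs2]
        obtain ⟨d1, d2, d3⟩ := c3 (s + 1) (by omega)
        obtain ⟨e1, e2, e3⟩ := c3 s (by omega)
        obtain ⟨f1, f2⟩ := c4 s (by omega)
        refine hs _ d1 _ e1 (by linarith) (by linarith) (by linarith) (by linarith) ?_ ih'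
        rw [abs_le]
        constructor <;> linarith
    have := key N le_rfl
    rwa [Nat.sub_self, c1] at this

/-- **The context** over the charts of the window `W`: the jets of the places `< r` of all orders
`≤ a`. -/
noncomputable def ctxQ (m : ℕ) (c : ℕ → Fin m) (sn : ℕ → ℝ → ℝ) (n N : ℕ → ℝ) (ε : ℝ) (r a : ℕ)
    (W : ℝ) : Qt m (ℕ → ℕ → ℤ) :=
  qJets m c 0 r a (fun _ _ => W) (fun l _ => sn l W)
    (fun l a' => if a' = 1 then N l else sn l W + (N l - n l - 4 * ε) + ε - (a' : ℕ) * W)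

/-- **One small step**: a jet of the order `a` over the places `< r`. -/
theorem step_jet {C₀ : ℝ} (htm : TmC S C₀)
    (hpos : ∀ (τ : ℝ) (J : ℕ) (F : Fam m J) (A : F.Ω → Prop), S.St τ J F A → 0 < Pe F.p A)
    {c : ℕ → Fin m} {d : ℕ} {sn : ℕ → ℝ → ℝ} {G : Set ℝ} (hW : ChG S c d sn G)
    (hf : ∀ (J : ℕ) (F : Fam m J), ∃ φ : α J F → PtT F, ∀ ω, ptr F J ω = φ (f J F ω))
    (hy : Kn ((range 0).image c) 1 1 y) {v W ε : ℝ} (hWG : W ∈ G) (hWv : W ≤ v) (hv : v ≤ 1)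
    {r : ℕ} (hr : r ≤ d) (hε : 0 < ε) {n N : ℕ → ℝ} (hlv : ∀ l < r, 4 * ε < N l - n l)
    (hfl : ∀ l < r, sn l W - W ≤ n l + ε)
    (hst : ∀ l' l, l' < l → l < r → N l - n l + 9 * ε ≤ N l' - n l')
    (hE : ∀ l < r, N l - n l ≤ 1 - W) {k : Fin m} {a : ℕ} {w₁ w₂ p₁ p₂ N₁ N₂ : ℝ}
    (h1 : w₁ ≤ W) (h2 : w₂ ≤ W) (hN : N₂ ≤ N₁)
    (h3 : N₂ + a * W + ε ≤ min p₁ p₂ + (1 - W))
    (h4 : ∀ l < r, N₂ + a * W + ε ≤ min p₁ p₂ + (N l - n l - 4 * ε)) :
    Few S f (vg v) y ((ctxQ m c sn n N ε r a W).prod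
      (qJet m ((range r).image c) k a w₁ p₁ N₁)) (qJet m ((range r).image c) k a w₂ p₂ N₂) := by
  obtain ⟨u₁, rd, hrd, hch⟩ := hW.ch W hWG
  have hW0 := hch.w0
  have hW1 := hch.u0
  have hmin : min (1 : ℝ) (1 - W) = 1 - W := min_eq_right (by linarith)
  have hup : ∀ (J : ℕ) (F : Fam m J), ∃ φ : LnT F → LnT F, ∀ ω,
      vg W J F ω = φ (vg v J F ω) := fun J F => vg_mono hWv hv J F
  refine Few.up (f' := f) (y' := y) hpos (fun J F => ⟨fun x => x, fun _ => rfl⟩) hup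
    (fun J F => ⟨fun x => x, fun _ => rfl⟩) ?_
  refine few_jetN (f := f) (y := y) htm (hch.take (Nat.zero_le r) hr) (k := k)
    (j := a) (lv := fun l => N l - n l - 4 * ε) (p₀ := 1) (lam := 1) (σ₀ := ε)
    (fun _ _ _ _ _ => le_rfl) h1 h2 hW1 le_rfl one_pos hε (fun l _ hl => ?_)
    (fun l _ hl j' _ => ?_) (fun l _ hl j' _ => ?_) (fun l _ hl j' _ l' _ hl' => ?_) hN ?_
    (fun l _ hl => h4 l hl) hf hy
  · linarith [hlv l hl]
  · by_cases hj : j' = 1
    · subst hj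
      simp only [if_true]
      push_cast
      linarith [hfl l hl]
    · simp only [if_neg hj]
      linarith
  · rw [hmin, min_self]
    linarith [hE l hl]
  · rw [min_self]
    linarith [hst l' l hl' hl]
  · rw [hmin]
    exact h3

/-- The data for `jet_all`. -/
structure JDat (S : PCl m) (c : ℕ → Fin m) (d r : ℕ) (sn : ℕ → ℝ → ℝ) (G : Set ℝ)
    (v E ε lo hi : ℝ) (n N : ℕ → ℝ) : Prop where
  ch : ChG S c d sn G
  rd : r ≤ d
  v1 : v ≤ 1
  E0 : 0 ≤ E
  ε0 : 0 < ε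
  pz : ∀ l < r, 4 * ε < N l - n l
  NE : ∀ l < r, N l - n l ≤ E
  st : ∀ l' l, l' < l → l < r → N l - n l + 9 * ε ≤ N l' - n l'
  hi1 : hi + E + (7 * d + 10) * ε ≤ v
  gap : ∀ x, lo ≤ x → x ≤ v → ∃ v' ∈ G, |v' - x| ≤ ε
  flt : ∀ l < d, ∀ v' ∈ G, lo ≤ v' → v' ≤ v → |(sn l v' - v') - n l| ≤ ε

/-- **All jets of the places of slope one over all near charts**. -/
theorem jet_all {C₀ : ℝ} (htm : TmC S C₀)
    (hpos : ∀ (τ : ℝ) (J : ℕ) (F : Fam m J) (A : F.Ω → Prop), S.St τ J F A → 0 < Pe F.p A)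
    {c : ℕ → Fin m} {d r : ℕ} {sn : ℕ → ℝ → ℝ} {G : Set ℝ}
    (hf : ∀ (J : ℕ) (F : Fam m J), ∃ φ : α J F → PtT F, ∀ ω, ptr F J ω = φ (f J F ω))
    (hy : Kn ((range 0).image c) 1 1 y) {v E ε lo hi : ℝ} {n N : ℕ → ℝ}
    (H : JDat S c d r sn G v E ε lo hi n N) {Q₀ : Qt m U} {w₁ : ℝ} {p₁ : ℕ → ℝ}
    (hprj : ∀ l < r, ∃ Φ : U → ℤ, ∀ (K : ℕ) (e : ℝ) (J : ℕ) (F : Fam m J) (A : F.Ω → Prop)
      (u : F.Ω → U), Q₀.P K e J F A u →
        (qJet m ((range l).image c) (c l) 1 w₁ (p₁ l) (N l)).P K e J F A (fun ω => Φ (u ω)))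
    (hw₁ : w₁ ∈ G) (hlo : lo + r * (E + 2 * ε) ≤ w₁) (hhi : w₁ ≤ hi)
    (hp₁ : ∀ l < r, sn l w₁ - ε ≤ p₁ l) (i : ℕ) : i < r → ∀ x ∈ G,
    lo + (i + 1) * (E + 2 * ε) ≤ x → x ≤ hi → ∀ a : ℕ, Few S f (vg v) y Q₀
      (qJet m ((range i).image c) (c i) a x (sn i x)
        (if a = 1 then N i else sn i x + (N i - n i - 4 * ε) + ε - (a : ℕ) * x)) := by
  have hE0 := H.E0
  have hε := H.ε0
  have hv := H.v1
  have hd0 : (0 : ℝ) ≤ d := Nat.cast_nonneg d
  have hdε : 0 ≤ (d : ℝ) * ε := by positivity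
  have hhi1 : hi + E + (7 * (d * ε) + 10 * ε) ≤ v := by
    have := H.hi1
    linarith
  have hE2 : 0 < E + 2 * ε := by linarith
  induction i using Nat.strong_induction_on with
  | _ i ih =>
  intro hi' x hx hlx hxh a
  have hid : i < d := hi'.trans_le H.rd
  have hi0 : (0 : ℝ) ≤ i := Nat.cast_nonneg i
  have hiE : 0 ≤ (i : ℝ) * (E + 2 * ε) := by positivity
  -- the context at all windows
  have hctx : ∀ W ∈ G, lo + i * (E + 2 * ε) ≤ W → W ≤ hi → ∀ a : ℕ,
      Few S f (vg v) y Q₀ (ctxQ m c sn n N ε i a W) := by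
    intro W hWG hW1 hW2 a
    refine few_qjets hpos fun l _ hl a' _ => ?_
    refine ih l hl (hl.trans hi') W hWG ?_ hW2 a'
    have h1 : (l : ℝ) + 1 ≤ i := by exact_mod_cast hl
    have h2 := mul_le_mul_of_nonneg_right h1 hE2.le
    linarith
  have hctxE : ∀ W ∈ G, ∀ a : ℕ, Exs S (ctxQ m c sn n N ε i a W) := by
    intro W hWG a
    obtain ⟨u₁, rd, hrd, hch⟩ := H.ch.ch W hWG
    exact exs_qjets fun l _ hl j' _ => exs_jet (hrd l (by omega))
      (hch.att l (Nat.zero_le _) (by omega))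
  have hexs : ∀ W ∈ G, ∀ (a : ℕ) (M : ℝ),
      Exs S (qJet m ((range i).image c) (c i) a W (sn i W) M) := by
    intro W hWG a M
    obtain ⟨u₁, rd, hrd, hch⟩ := H.ch.ch W hWG
    exact exs_jet (hrd i hid) (hch.att i (Nat.zero_le _) hid)
  have hflt : ∀ l < d, ∀ v' ∈ G, lo ≤ v' → v' ≤ v → n l + v' - ε ≤ sn l v' ∧
      sn l v' ≤ n l + v' + ε := by
    intro l hl v' h1 h2 h3
    have h4 := abs_le.1 (H.flt l hl v' h1 h2 h3)
    constructor <;> linarith [h4.1, h4.2]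
  have hhv : hi ≤ v := by linarith
  -- one step
  have hstep : ∀ (a : ℕ) (z z' W p p' M : ℝ), W ∈ G → lo + i * (E + 2 * ε) ≤ W → W ≤ hi →
      z ≤ W → z' ≤ W → M + a * W + ε ≤ min p p' + (1 - W) →
      (∀ l < i, M + a * W + ε ≤ min p p' + (N l - n l - 4 * ε)) →
      Few S f (vg v) y ((ctxQ m c sn n N ε i a W).prod
        (qJet m ((range i).image c) (c i) a z p M))
        (qJet m ((range i).image c) (c i) a z' p' M) := by
    intro a z z' W p p' M hWG hW1 hW2 hz hz' h3 h4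
    refine step_jet htm hpos H.ch hf hy hWG (hW2.trans hhv) hv (by omega) hε
      (fun l hl => H.pz l (hl.trans hi')) (fun l hl => ?_)
      (fun l' l h5 h6 => H.st l' l h5 (h6.trans hi')) (fun l hl => ?_) hz hz' le_rfl h3 h4
    · linarith [(hflt l (by omega) W hWG (by linarith) (hW2.trans hhv)).2]
    · linarith [H.NE l (hl.trans hi')]
  have hNi := H.NE i hi'
  have hpi := H.pz i hi'
  by_cases ha1 : a = 1
  · -- the velocity
    subst ha1
    rw [if_pos rfl]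
    obtain ⟨Φ, hΦ⟩ := hprj i hi'
    have hir : (i : ℝ) + 1 ≤ r := by exact_mod_cast hi'
    have hir2 := mul_le_mul_of_nonneg_right hir hE2.le
    have hw1lo : lo + i * (E + 2 * ε) ≤ w₁ := by linarith
    obtain ⟨q1, q2⟩ := hflt i hid w₁ hw₁ (by linarith) (hhi.trans hhv)
    have hpi1 := hp₁ i hi'
    have hmn : sn i w₁ - ε ≤ min (p₁ i) (sn i w₁) := le_min hpi1 (by linarith)
    -- the given window
    have h0 : Few S f (vg v) y Q₀ (qJet m ((range i).image c) (c i) 1 w₁ (sn i w₁) (N i)) := by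
      refine few_cut hpos (hctxE w₁ hw₁ 1) (hctx w₁ hw₁ hw1lo hhi 1) ?_
      refine Few.pre hpos (fun q : U × (ℕ → ℕ → ℤ) => (q.2, Φ q.1)) ?_
        (hstep 1 w₁ w₁ w₁ (p₁ i) (sn i w₁) (N i) hw₁ hw1lo hhi le_rfl le_rfl ?_ fun l hl => ?_)
      · rintro K e J F A u ⟨hu1, hu2⟩
        exact ⟨hu2, hΦ K e J F A _ hu1⟩
      · push_cast
        linarith
      · have := H.st l i hl hi'
        push_cast
        linarith
    refine chain_prop (P := fun x => Few S f (vg v) y Q₀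
      (qJet m ((range i).image c) (c i) 1 x (sn i x) (N i))) (lo := lo + i * (E + 2 * ε))
      (hi := hi) (ρ₀ := ε) (h := 3 * ε) (by linarith)
      (fun z c1 c2 => H.gap z (by linarith) (c2.trans hhv)) hw₁ hw1lo hhi h0 ?_ x hx
      (by linarith) hxh
    intro z hz z' hz' c1 c2 c3 c4 c5 hP
    obtain ⟨W, hWd⟩ : ∃ W : ℝ, W = max z z' := ⟨_, rfl⟩
    have hWG : W ∈ G := by
      rw [hWd]
      rcases max_choice z z' with h | h <;> rw [h] <;> assumption
    have hzW : z ≤ W := by rw [hWd]; exact le_max_left _ _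
    have hzW' : z' ≤ W := by rw [hWd]; exact le_max_right _ _
    have hWhi : W ≤ hi := by rw [hWd]; exact max_le c2 c4
    rw [abs_le] at c5
    have hWz : W ≤ z + 3 * ε ∧ W ≤ z' + 3 * ε := by
      rw [hWd]
      exact ⟨max_le (by linarith) (by linarith), max_le (by linarith) (by linarith)⟩
    obtain ⟨d1, d2⟩ := hflt i hid z hz (by linarith) (c2.trans hhv)
    obtain ⟨d3, d4⟩ := hflt i hid z' hz' (by linarith) (c4.trans hhv)
    have hmn : n i + W - 4 * ε ≤ min (sn i z) (sn i z') :=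
      le_min (by linarith) (by linarith)
    refine Few.trans hpos ((hctxE W hWG 1).prod (hexs z hz 1 (N i)))
      (Few.pair hpos (hctx W hWG (by linarith) hWhi 1) hP)
      (hstep 1 z z' W (sn i z) (sn i z') (N i) hWG (by linarith) hWhi hzW hzW' ?_
        fun l hl => ?_)
    · push_cast
      linarith
    · have := H.st l i hl hi'
      push_cast
      linarith
  rw [if_neg ha1]
  obtain ⟨x1, x2⟩ := hflt i hid x hx (by linarith) (hxh.trans hhv)
  obtain ⟨v₁, rx, hrx, hcx⟩ := H.ch.ch x hx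
  have hi1d : (i : ℝ) + 1 ≤ d := by exact_mod_cast hid
  by_cases ha0 : a = 0
  · -- the height
    subst ha0
    obtain ⟨o, ho, ho1⟩ := H.gap (v - ε) (by linarith) (by linarith)
    rw [abs_le] at ho1
    obtain ⟨o1, o2⟩ := hflt i hid o ho (by linarith) (by linarith)
    refine Few0.few hpos (hts0G htm hpos H.ch hf hy (w := x) (o := o) (φ := 2 * ε) (ρ₀ := ε)
      (κ := ε) hx ho (by linarith) (by linarith) hv (by positivity) hε.le hε
      (fun z c1 c2 => H.gap z (by linarith) (by linarith)) (fun l hl v' hv' c1 c2 => ?_) hid ?_)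
    · have e1 := hflt l hl v' hv' (by linarith) (by linarith)
      have e2 := hflt l hl o ho (by linarith) (by linarith)
      rw [abs_le]
      constructor <;> linarith [e1.1, e1.2, e2.1, e2.2]
    · have e3 := mul_le_mul_of_nonneg_right hi1d hε.le
      push_cast
      linarith
  -- the order at least two
  have ha2 : (2 : ℝ) ≤ a := by exact_mod_cast (by omega : 2 ≤ a)
  obtain ⟨lv, hlv⟩ : ∃ lv : ℝ, lv = N i - n i - 4 * ε := ⟨_, rfl⟩
  rw [← hlv]
  obtain ⟨x₀, hx₀, hx0⟩ := H.gap (x - (lv + 5 * ε)) (by linarith) (by linarith)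
  rw [abs_le] at hx0
  obtain ⟨M, hM⟩ : ∃ M : ℝ, M = sn i x + lv + ε - (a : ℕ) * x := ⟨_, rfl⟩
  rw [← hM]
  have hx0lo : lo + i * (E + 2 * ε) ≤ x₀ := by linarith
  have hx0x : x₀ ≤ x := by linarith
  obtain ⟨y1, y2⟩ := hflt i hid x₀ hx₀ (by linarith) (by linarith)
  have hbase : Few S f (vg v) y Q₀ (qJet m ((range i).image c) (c i) a x₀ (sn i x₀) M) := by
    obtain ⟨v₂, rx₂, hrx₂, hcx₂⟩ := H.ch.ch x₀ hx₀
    refine Few0.few hpos (few0_jet htm hcx₂.w0 hcx₂.u0 ?_ _ _ _)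
    have e1 : 2 * (x - x₀) ≤ a * (x - x₀) :=
      mul_le_mul_of_nonneg_right ha2 (by linarith)
    rw [hM]
    have e2 : (a : ℝ) * (x - x₀) = a * x - a * x₀ := by ring
    linarith
  refine chain_prop (P := fun z => Few S f (vg v) y Q₀
    (qJet m ((range i).image c) (c i) a z (sn i z) M)) (lo := lo + i * (E + 2 * ε))
    (hi := x) (ρ₀ := ε) (h := 3 * ε) (by linarith)
    (fun z c1 c2 => H.gap z (by linarith) (by linarith)) hx₀ hx0lo hx0x hbase ?_ x hx
    (by linarith) le_rfl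
  intro z hz z' hz' c1 c2 c3 c4 c5 hP
  obtain ⟨W, hWd⟩ : ∃ W : ℝ, W = max z z' := ⟨_, rfl⟩
  have hWG : W ∈ G := by
    rw [hWd]
    rcases max_choice z z' with h | h <;> rw [h] <;> assumption
  have hzW : z ≤ W := by rw [hWd]; exact le_max_left _ _
  have hzW' : z' ≤ W := by rw [hWd]; exact le_max_right _ _
  have hWx : W ≤ x := by rw [hWd]; exact max_le c2 c4
  rw [abs_le] at c5
  have hWz : W ≤ z + 3 * ε ∧ W ≤ z' + 3 * ε := by
    rw [hWd]
    exact ⟨max_le (by linarith) (by linarith), max_le (by linarith) (by linarith)⟩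
  obtain ⟨d1, d2⟩ := hflt i hid z hz (by linarith) (by linarith)
  obtain ⟨d3, d4⟩ := hflt i hid z' hz' (by linarith) (by linarith)
  have hmn : n i + W - 4 * ε ≤ min (sn i z) (sn i z') :=
    le_min (by linarith) (by linarith)
  have e1 : 2 * (x - W) ≤ a * (x - W) := mul_le_mul_of_nonneg_right ha2 (by linarith)
  have e2 : (a : ℝ) * (x - W) = a * x - a * W := by ring
  have e3 : M + a * W ≤ n i + W + lv + 2 * ε := by
    rw [hM]
    linarith
  refine Few.trans hpos ((hctxE W hWG a).prod (hexs z hz a M))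
    (Few.pair hpos (hctx W hWG (by linarith) (by linarith) a) hP)
    (hstep a z z' W (sn i z) (sn i z') M hWG (by linarith) (by linarith) hzW hzW' ?_
      fun l hl => ?_)
  · linarith
  · have := H.st l i hl hi'
    linarith

end Pool.FRJ
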