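import Pool.Agent.H89.FRJ.Cch

/-!
# Families of own jets with flat natural digits

`Cmp`: a finite family of own jets; `qC`: the joint quantity; `FmJ`: natural labels exist at the
windows of a set; `Reg`: the natural digits are nearly constant and the set has small gaps; `CCh`:
the change of charts. `cch_chain`: the change of charts for the velocities of a chain of places of
slope one and the own jet of the order `j` of one more place.
-/

set_option autoImplicit false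

namespace Pool.FRJ

open Finset Real MvPolynomial
open Pool.Agent.H49.Ent Pool.Agent.H32.Dense Pool.STK Pool.KA Pool.KSAT Pool.K2S Pool.PB Pool.GEN
open Pool.S6C Pool.RCD Pool.LA91
open Pool.GRD (LbP)

variable {m D : ℕ} {α γ : ∀ J : ℕ, Fam m J → Type}
  {f : ∀ (J : ℕ) (F : Fam m J), F.Ω → α J F} {y : ∀ (J : ℕ) (F : Fam m J), F.Ω → γ J F}
  {S S' : PCl m}

/-- **Own jets**: the jet of the order `j i` of the coordinate `k i` over charts over `I i`. -/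
structure Cmp (m D : ℕ) where
  /-- The coordinates of the charts. -/
  I : Fin D → Finset (Fin m)
  /-- The coordinate. -/
  k : Fin D → Fin m
  /-- The order. -/
  j : Fin D → ℕ

/-- **The joint quantity**: the jets over charts of the window `w`, of the precisions `p`, to `N`
digits. -/
noncomputable def qC (q : Cmp m D) (p : Fin D → ℝ) (w : ℝ) (N : Fin D → ℝ) : Qt m (Fin D → ℤ) :=
  Qt.pi fun i => qJet m (q.I i) (q.k i) (q.j i) w (p i) (N i)

/-- **Natural labels** at the windows of the set `G`. -/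
structure FmJ (S : PCl m) (q : Cmp m D) (s : Fin D → ℝ → ℝ) (G : Set ℝ) : Prop where
  w0 : ∀ w ∈ G, 0 ≤ w
  w1 : ∀ w ∈ G, w < 1
  att : ∀ w ∈ G, ∀ i, ∃ rk : ℝ, 0 ≤ rk ∧ Att S (q.I i) (q.k i) w (s i w) rk

theorem FmJ.sub {q : Cmp m D} {s : Fin D → ℝ → ℝ} {G : Set ℝ}
    (hs : ∀ (τ : ℝ) (J : ℕ) (F : Fam m J) (A : F.Ω → Prop), S'.St τ J F A → S.St τ J F A)
    (h : FmJ S q s G) : FmJ S' q s G where
  w0 := h.w0
  w1 := h.w1
  att w hw i := by
    obtain ⟨rk, h1, h2⟩ := h.att w hw i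
    exact ⟨rk, h1, h2.sub hs⟩

theorem FmJ.exs {q : Cmp m D} {s : Fin D → ℝ → ℝ} {G : Set ℝ} (h : FmJ S q s G) {w : ℝ}
    (hw : w ∈ G) {p : Fin D → ℝ} (hp : ∀ i, p i ≤ s i w) (N : Fin D → ℝ) :
    Exs S (qC q p w N) := by
  refine exs_pi fun i => ?_
  obtain ⟨rk, h1, h2⟩ := h.att w hw i
  refine exs_jet h1 ?_
  intro e he
  obtain ⟨K, hK⟩ := h2 e he
  refine ⟨K, Bas.mono 0 hK ?_⟩
  intro J _ F A hG
  have hJ : (0 : ℝ) ≤ J := Nat.cast_nonneg J
  exact hG.mono (Finset.Subset.refl _) le_rfl le_rfl le_rfl le_rfl (fl_le (h.w1 w hw).le J) le_rfl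
    (Nat.floor_le_floor (mul_le_mul_of_nonneg_right (by linarith [hp i]) hJ))

/-- **The natural digits are nearly constant** between `lo` and `v`, and the set `G` has small
gaps. -/
structure Reg (q : Cmp m D) (s : Fin D → ℝ → ℝ) (G : Set ℝ) (n : Fin D → ℝ) (ε lo v : ℝ) :
    Prop where
  gap : ∀ x, lo ≤ x → x ≤ v → ∃ v' ∈ G, |v' - x| ≤ ε
  flt : ∀ l, ∀ v' ∈ G, lo ≤ v' → v' ≤ v → |(s l v' - q.j l * v') - n l| ≤ ε

/-- **The data for a change of charts**: from the charts of the window `w₁` to those of `w₂`, the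
record at the window `v`. -/
structure ChI (q : Cmp m D) (s : Fin D → ℝ → ℝ) (G : Set ℝ) (Jm L K : ℝ) (v E ε ρ w₁ w₂ : ℝ)
    (n N p₁ : Fin D → ℝ) : Prop where
  v1 : v ≤ 1
  E0 : 0 ≤ E
  ε0 : 0 < ε
  g1 : w₁ ∈ G
  g2 : w₂ ∈ G
  dd : |w₁ - w₂| ≤ ρ
  lag : w₁ + E + (Jm + 1) * ρ + L * ε ≤ v
  reg : Reg q s G n ε (w₁ - K * (E + ρ + L * ε)) v
  nE : ∀ l, N l - n l ≤ E
  st : ∀ l' l, l' < l → N l - n l + Jm * ρ + L * ε ≤ N l' - n l'
  pr : ∀ l, s l w₁ - ε ≤ p₁ l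

/-- **The change of charts** for the family. -/
def CCh (S : PCl m) (f : ∀ (J : ℕ) (F : Fam m J), F.Ω → α J F)
    (y : ∀ (J : ℕ) (F : Fam m J), F.Ω → γ J F) (q : Cmp m D) (s : Fin D → ℝ → ℝ) (G : Set ℝ)
    (Jm L K : ℝ) : Prop :=
  ∀ (v E ε ρ w₁ w₂ : ℝ) (n N p₁ : Fin D → ℝ), ChI q s G Jm L K v E ε ρ w₁ w₂ n N p₁ →
    ∀ (i : Fin D) (p₂ N₂ : ℝ), s i w₂ - ε ≤ p₂ → N₂ ≤ N i →
      Few S f (vg v) y (qC q p₁ w₁ N) (qJet m (q.I i) (q.k i) (q.j i) w₂ p₂ N₂)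

theorem CCh.sub {q : Cmp m D} {s : Fin D → ℝ → ℝ} {G : Set ℝ} {Jm L K : ℝ}
    (hs : ∀ (τ : ℝ) (J : ℕ) (F : Fam m J) (A : F.Ω → Prop), S'.St τ J F A → S.St τ J F A)
    (h : CCh S f y q s G Jm L K) : CCh S' f y q s G Jm L K :=
  fun v E ε ρ w₁ w₂ n N p₁ H i p₂ N₂ a b => (h v E ε ρ w₁ w₂ n N p₁ H i p₂ N₂ a b).sub hs

/-! ### A chain of places of slope one and one more place -/

/-- **The velocities of the places `c 0, .., c (d - 1)` and the jet of the order `j` of the place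
`c d`.** -/
def qch (c : ℕ → Fin m) (d j : ℕ) : Cmp m (d + 1) where
  I i := (range (i : ℕ)).image c
  k i := c i
  j i := if (i : ℕ) < d then 1 else j

/-- **The change of charts** for the velocities of a chain of places of slope one and the jet of the
order `j` of one more place. -/
theorem cch_chain {C₀ : ℝ} (htm : TmC S C₀)
    (hpos : ∀ (τ : ℝ) (J : ℕ) (F : Fam m J) (A : F.Ω → Prop), S.St τ J F A → 0 < Pe F.p A)
    {c : ℕ → Fin m} {d j : ℕ} {sn : ℕ → ℝ → ℝ} {G : Set ℝ} (hW : ChG S c d sn G)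
    (hf : ∀ (J : ℕ) (F : Fam m J), ∃ φ : α J F → PtT F, ∀ ω, ptr F J ω = φ (f J F ω))
    (hy : Kn ((range 0).image c) 1 1 y) (hG0 : ∀ w ∈ G, 0 ≤ w) (hG1 : ∀ w ∈ G, w < 1) {Jm : ℝ}
    (hJ1 : 1 ≤ Jm) (hJ : (j : ℝ) ≤ Jm) :
    CCh S f y (qch c d j) (fun i => sn i) G Jm (7 * d + 20) (d + 1) := by
  intro v E ε ρ w₁ w₂ n N p₁ H i p₂ N₂ hp₂ hN₂
  obtain ⟨v1, E0, ε0, g1, g2, dd, lag, reg, nE, st, pr⟩ := H
  have hρ : 0 ≤ ρ := (abs_nonneg _).trans dd
  have hd0 : (0 : ℝ) ≤ d := Nat.cast_nonneg d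
  have hdε : 0 ≤ (d : ℝ) * ε := by positivity
  have hJρ : ρ ≤ Jm * ρ := by nlinarith
  have hJρ0 : 0 ≤ Jm * ρ := hρ.trans hJρ
  have lag' : w₁ + E + Jm * ρ + ρ + 7 * (d * ε) + 20 * ε ≤ v := by linarith
  obtain ⟨W, hWd⟩ : ∃ W : ℝ, W = max w₁ w₂ := ⟨_, rfl⟩
  have hWG : W ∈ G := by
    rw [hWd]
    rcases max_choice w₁ w₂ with h | h <;> rw [h] <;> assumption
  have h1W : w₁ ≤ W := by rw [hWd]; exact le_max_left _ _
  have h2W : w₂ ≤ W := by rw [hWd]; exact le_max_right _ _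
  have dd' := abs_le.1 dd
  have hWρ : W ≤ w₁ + ρ ∧ W ≤ w₂ + ρ := by
    rw [hWd]
    exact ⟨max_le (by linarith) (by linarith), max_le (by linarith) (by linarith)⟩
  obtain ⟨lo, hlo⟩ : ∃ lo : ℝ, lo = w₁ - (d + 1) * (E + ρ + (7 * d + 20) * ε) := ⟨_, rfl⟩
  have hlo' : lo + (d + 1) * (E + 2 * ε) ≤ w₁ - ρ := by
    rw [hlo]
    nlinarith [mul_nonneg hd0 hρ, mul_nonneg hd0 hdε]
  rw [← hlo] at reg
  have hdE : 0 ≤ (d : ℝ) * (E + 2 * ε) := by positivity
  have hflt : ∀ l : Fin (d + 1), ∀ v' ∈ G, lo ≤ v' → v' ≤ v →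
      n l + (qch c d j).j l * v' - ε ≤ sn l v' ∧ sn l v' ≤ n l + (qch c d j).j l * v' + ε := by
    intro l v' h1 h2 h3
    have h4 := abs_le.1 (reg.flt l v' h1 h2 h3)
    constructor <;> linarith [h4.1, h4.2]
  have hji : ((qch c d j).j i : ℝ) ≤ Jm := by
    unfold qch
    simp only
    split_ifs
    · push_cast
      exact hJ1
    · exact hJ
  have hji0 : (0 : ℝ) ≤ ((qch c d j).j i : ℝ) := Nat.cast_nonneg _
  by_cases htriv : N₂ + (qch c d j).j i * w₂ ≤ p₂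
  · exact Few0.few hpos (few0_jet htm (hG0 w₂ g2) (hG1 w₂ g2) htriv _ _ _)
  push Not at htriv
  -- positivity
  obtain ⟨f1, f2⟩ := hflt i w₂ g2 (by linarith) (by linarith)
  have hei : -(2 * ε) < N i - n i := by linarith
  have hpz : ∀ l : Fin (d + 1), l < i → 4 * ε < N l - n l := by
    intro l hl
    have := st l i hl
    linarith
  -- extension to the natural numbers
  obtain ⟨n', hn'⟩ : ∃ n' : ℕ → ℝ, ∀ l : Fin (d + 1), n' l = n l :=
    ⟨fun l => if h : l < d + 1 then n ⟨l, h⟩ else 0, fun l => dif_pos l.2⟩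
  obtain ⟨N', hN'⟩ : ∃ N' : ℕ → ℝ, ∀ l : Fin (d + 1), N' l = N l :=
    ⟨fun l => if h : l < d + 1 then N ⟨l, h⟩ else 0, fun l => dif_pos l.2⟩
  obtain ⟨p', hp'⟩ : ∃ p' : ℕ → ℝ, ∀ l : Fin (d + 1), p' l = p₁ l :=
    ⟨fun l => if h : l < d + 1 then p₁ ⟨l, h⟩ else 0, fun l => dif_pos l.2⟩
  have hid : (i : ℕ) ≤ d := Nat.lt_succ_iff.1 i.2
  have hJd : JDat S c d i sn G v E ε lo W n' N' := by
    refine ⟨hW, hid, v1, E0, ε0, fun l hl => ?_, fun l hl => ?_, fun l' l h1 h2 => ?_, ?_,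
      reg.gap, fun l hl v' h1 h2 h3 => ?_⟩
    · have := hpz ⟨l, hl.trans i.2⟩ hl
      rw [← hn', ← hN'] at this
      exact this
    · have := nE ⟨l, hl.trans i.2⟩
      rw [← hn', ← hN'] at this
      exact this
    · have h3 := st ⟨l', h1.trans (h2.trans i.2)⟩ ⟨l, h2.trans i.2⟩ h1
      rw [← hn', ← hN', ← hn', ← hN'] at h3
      simp only at h3
      linarith
    · linarith
    · have h4 := reg.flt ⟨l, Nat.lt_succ_of_lt hl⟩ v' h1 h2 h3
      rw [← hn'] at h4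
      unfold qch at h4
      simp only [if_pos hl] at h4
      push_cast at h4
      rw [one_mul] at h4
      exact h4
  have hctx : Few S f (vg v) y (qC (qch c d j) p₁ w₁ N)
      (ctxQ m c sn n' N' ε i ((qch c d j).j i) W) := by
    refine few_qjets hpos fun l _ hl a' _ => ?_
    have hld : (l : ℝ) + 1 ≤ d := by exact_mod_cast (by omega : l + 1 ≤ d)
    have hid' : ((i : ℕ) : ℝ) ≤ d := by exact_mod_cast hid
    have hE2 : 0 ≤ E + 2 * ε := by linarith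
    refine jet_all htm hpos hf hy hJd (Q₀ := qC (qch c d j) p₁ w₁ N) (w₁ := w₁) (p₁ := p')
      (fun l hl => ⟨fun u => u ⟨l, hl.trans i.2⟩, fun K e J F A u hu => ?_⟩) g1 ?_ h1W
      (fun l hl => ?_) l hl W hWG ?_ le_rfl a'
    · have h1 := hu ⟨l, hl.trans i.2⟩
      have h2 := hp' ⟨l, hl.trans i.2⟩
      have h3 := hN' ⟨l, hl.trans i.2⟩
      simp only at h2 h3
      rw [h2, h3]
      unfold qch at h1
      simp only [if_pos (lt_of_lt_of_le hl hid)] at h1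
      exact h1
    · have := mul_le_mul_of_nonneg_right hid' hE2
      linarith
    · have h1 := pr ⟨l, hl.trans i.2⟩
      rw [← hp'] at h1
      exact h1
    · have := mul_le_mul_of_nonneg_right hld hE2
      linarith
  -- the target
  have hctxE : Exs S (ctxQ m c sn n' N' ε i ((qch c d j).j i) W) := by
    obtain ⟨u₁, rd, hrd, hch⟩ := hW.ch W hWG
    exact exs_qjets fun l _ hl j' _ => exs_jet (hrd l (by omega))
      (hch.att l (Nat.zero_le _) (by omega))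
  obtain ⟨e1, e2⟩ := hflt i w₁ g1 (by linarith) (by linarith)
  have hpi := pr i
  have hjρ : ((qch c d j).j i : ℝ) * ρ ≤ Jm * ρ := mul_le_mul_of_nonneg_right hji hρ
  have hm1 : ((qch c d j).j i : ℝ) * W ≤ (qch c d j).j i * w₁ + (qch c d j).j i * ρ := by
    have := mul_le_mul_of_nonneg_left hWρ.1 hji0
    linarith
  have hm2 : ((qch c d j).j i : ℝ) * W ≤ (qch c d j).j i * w₂ + (qch c d j).j i * ρ := by
    have := mul_le_mul_of_nonneg_left hWρ.2 hji0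
    linarith
  have hmn : n i + (qch c d j).j i * W - Jm * ρ - 2 * ε ≤ min (p₁ i) p₂ := by
    refine le_min ?_ ?_
    · linarith
    · linarith
  have hnEi := nE i
  refine few_cut hpos hctxE hctx ?_
  refine Few.pre hpos (fun q : (Fin (d + 1) → ℤ) × (ℕ → ℕ → ℤ) => (q.2, q.1 i)) ?_
    (step_jet htm hpos hW hf hy hWG (by linarith) v1 hid ε0 (n := n') (N := N')
      (k := c i) (a := (qch c d j).j i) (w₁ := w₁) (w₂ := w₂) (p₁ := p₁ i) (p₂ := p₂)
      (N₁ := N i) (N₂ := N₂) hJd.pz (fun l hl => ?_) hJd.st (fun l hl => ?_) h1W h2W hN₂ ?_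
      (fun l hl => ?_))
  · rintro K e J F A u ⟨hu1, hu2⟩
    exact ⟨hu2, hu1 i⟩
  · have h3 := abs_le.1 (hJd.flt l (by omega) W hWG (by linarith) (by linarith))
    linarith [h3.2]
  · linarith [hJd.NE l hl]
  · linarith
  · have h1 := st ⟨l, hl.trans i.2⟩ i hl
    rw [← hn' ⟨l, hl.trans i.2⟩, ← hN' ⟨l, hl.trans i.2⟩] at h1
    simp only at h1
    linarith

end Pool.FRJ
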