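import Pool.Agent.H89.FRJ.Frq
import Pool.Agent.H91.FR.DropG

/-!
# The numbers of a family at all small scales: the dominating scale

`dom_J`: a good scale at a critical point of the set `G` dominates the small scales.
-/

set_option autoImplicit false

namespace Pool.FRJ

open Finset Real MvPolynomial
open Pool.Agent.H49.Ent Pool.Agent.H32.Dense Pool.STK Pool.KA Pool.KSAT Pool.K2S Pool.PB Pool.GEN
open Pool.S6C Pool.RCD Pool.LA91

variable {m D : ℕ} {α γ : ∀ J : ℕ, Fam m J → Type}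
  {f : ∀ (J : ℕ) (F : Fam m J), F.Ω → α J F} {y : ∀ (J : ℕ) (F : Fam m J), F.Ω → γ J F}
  {S S' : PCl m}

/-- The radius of the flatness. -/
noncomputable def cR (K : ℝ) (C D : ℕ) : ℝ := (K + 1) * cL C D

/-- The quantity over natural labels. -/
noncomputable abbrev qN (q : Cmp m D) (s : Fin D → ℝ → ℝ) (x : ℝ) (N : Fin D → ℝ) :
    Qt m (Fin D → ℤ) := qC q (fun i => s i x) x N

/-- The admissible digits. -/
def OkJ (q : Cmp m D) (s : Fin D → ℝ → ℝ) (sh : ℝ) (G : Set ℝ) (pG : ℝ → ℝ) (K T : ℝ) (C : ℕ)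
    (σ : ℚ) (k : ℕ) (w : ℚ) (N : Option (Fin D) → ℚ) : Prop :=
  Ok (rkG D) (nJ q s sh G pG) (cN C D + 3 + 3 * (σ : ℝ) * (D + 1))
        (σ : ℝ) ((σ : ℝ) / T) (cR K C D) k w N

/-- The conclusion of `free_freqT` at the scale `k`. -/
def GdJ (S : PCl m) (f : ∀ (J : ℕ) (F : Fam m J), F.Ω → α J F)
    (y : ∀ (J : ℕ) (F : Fam m J), F.Ω → γ J F) (q : Cmp m D) (s : Fin D → ℝ → ℝ) (sh : ℝ)
    (G : Set ℝ) (pG : ℝ → ℝ) (K T : ℝ) (C : ℕ) (σ : ℚ)
    (θ : ℕ → ℚ → (Option (Fin D) → ℚ) → ℝ) (κ : ℝ) (k : ℕ) (g : ℝ) : Prop :=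
  ∀ (P P' : Option (Fin D) → ℚ) (w w' : ℚ),
      (∀ i, nJ q s sh G pG i g - cN C D * (1 / 2) ^ k ≤ P i) →
      (∀ i, P i ≤ P' i) → (∀ i, (P' i : ℝ) ≤ nJ q s sh G pG i g + cN C D * (1 / 2) ^ k) →
      (∀ l i, rkG D l < rkG D i →
        (P i : ℝ) - nJ q s sh G pG i g + 2 * (σ : ℝ) * (1 / 2) ^ k ≤
          P l - nJ q s sh G pG l g) →
      (∀ l i, rkG D l < rkG D i →
        (P' i : ℝ) - nJ q s sh G pG i g + 2 * (σ : ℝ) * (1 / 2) ^ k ≤
          P' l - nJ q s sh G pG l g) →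
      g - cN C D * (1 / 2) ^ k ≤ w → w ≤ w' → (w' : ℝ) ≤ g + cN C D * (1 / 2) ^ k →
      (θ k w P' - θ k w P) - (θ k w' P' - θ k w' P) ≤ κ * (1 / 2) ^ k ∧
      OkJ q s sh G pG K T C σ k w P ∧
      OkJ q s sh G pG K T C σ k w' P ∧
      OkJ q s sh G pG K T C σ k w P' ∧
      OkJ q s sh G pG K T C σ k w' P' ∧
      Few S f (vg (((w' + qL C D k : ℚ) : ℝ) + sh)) y
        (qN q s (pG ((w : ℝ) + sh)) (fun i => (P' (some i) : ℝ)))
        (qN q s (pG ((w' : ℝ) + sh)) (fun i => (P' (some i) : ℝ))) ∧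
      Few S f (vg (((w' + qL C D k : ℚ) : ℝ) + sh)) y
        (qN q s (pG ((w' : ℝ) + sh)) (fun i => (P' (some i) : ℝ)))
        (qN q s (pG ((w : ℝ) + sh)) (fun i => (P' (some i) : ℝ)))

/-- **The numbers of the jets.** -/
def NmJ (S : PCl m) (f : ∀ (J : ℕ) (F : Fam m J), F.Ω → α J F)
    (y : ∀ (J : ℕ) (F : Fam m J), F.Ω → γ J F) (q : Cmp m D) (s : Fin D → ℝ → ℝ) (sh : ℝ)
    (G : Set ℝ) (pG : ℝ → ℝ) (K T A B : ℝ) (C : ℕ) (σ : ℚ) (k₁ : ℕ)
    (θ : ℕ → ℚ → (Option (Fin D) → ℚ) → ℝ) : Prop :=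
  ∀ k ≥ k₁, ∀ (w : ℚ) (N : Option (Fin D) → ℚ), A ≤ w → (w : ℝ) ≤ B →
    OkJ q s sh G pG K T C σ k w N →
    NN S f (vg (((w + qL C D k : ℚ) : ℝ) + sh)) y (qN q s (pG ((w : ℝ) + sh))
      (fun i => (N (some i) : ℝ))) (θ k w N)

/-- **The conditions `FrT`** for the jets. -/
def FqJ (S : PCl m) (f : ∀ (J : ℕ) (F : Fam m J), F.Ω → α J F)
    (y : ∀ (J : ℕ) (F : Fam m J), F.Ω → γ J F) (q : Cmp m D) (s : Fin D → ℝ → ℝ) (sh : ℝ)
    (G : Set ℝ) (pG : ℝ → ℝ) (K T A B : ℝ) (C : ℕ) (σ : ℚ) (k₁ : ℕ) : Prop :=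
  FrT S f (fun _ => y) (fun _ w N => qN q s (pG ((w : ℝ) + sh)) (fun i => (N (some i) : ℝ)))
      (qL C D) (rkG D) (nJ q s sh G pG) sh A B (cN C D + 3 + 3 * (σ : ℝ) * (D + 1))
      (σ : ℝ) ((σ : ℝ) / T) (cR K C D) ((σ : ℝ) / T) (Real.log 2) k₁

/-- The low digits are few bits given the record. -/
theorem zero_J {C₀ : ℝ} (hS : S.Ne)
    (hpos : ∀ (τ : ℝ) (J : ℕ) (F : Fam m J) (A : F.Ω → Prop), S.St τ J F A → 0 < Pe F.p A)
    (htm : TmC S C₀) {q : Cmp m D} {s : Fin D → ℝ → ℝ} {sh K T A B : ℝ} {G : Set ℝ}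
    (hF : FmJ S q s G) {pG : ℝ → ℝ} (hp : NrG G pG) (hK : 0 ≤ K) {C : ℕ} {σ : ℚ} {k₁ : ℕ}
    {η : ℚ → ℝ} (hη : ∀ w : ℚ, A ≤ w → (w : ℝ) + sh ≤ 1 → RNum S f (vg ((w : ℝ) + sh)) (η w))
    (hfr : FqJ S f y q s sh G pG K T A B C σ k₁) {θ : ℕ → ℚ → (Option (Fin D) → ℚ) → ℝ}
    (hθ : NmJ S f y q s sh G pG K T A B C σ k₁ θ) {k : ℕ} (hk : k₁ ≤ k) {g : ℝ}
    {L : Option (Fin D) → ℚ} (hL : ∀ i : Fin D, (L (some i) : ℝ) ≤
      nJ q s sh G pG (some i) g - (σ : ℝ) / T * (1 / 2) ^ k) {v : ℚ} (c1 : A ≤ v)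
    (c2 : (v : ℝ) ≤ B) (c3 : |g - v| ≤ cL C D * (1 / 2) ^ k)
    (hok : OkJ q s sh G pG K T C σ k v L) : θ k v L = 0 := by
  obtain ⟨q0, q1⟩ := hfr.win k hk
  have q0' : (0 : ℝ) ≤ qL C D k := by exact_mod_cast q0
  have hcL : 0 ≤ cL C D := by unfold cL; positivity
  refine NN.zero hS hpos (hη (v + qL C D k) (by push_cast; linarith) (by
    push_cast; linarith)) (hθ k hk v L c1 c2 hok) (hfr.exs k hk v L c1 c2 hok) ?_
  refine few_tQt hpos (few_pi hpos fun i => Few0.few hpos (few0_jet htm (hF.w0 _ (hp.mem _))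
    (hF.w1 _ (hp.mem _)) ?_ _ _ _))
  have c3' : |g - v| ≤ cR K C D * (1 / 2) ^ k := by
    refine c3.trans (mul_le_mul_of_nonneg_right ?_ (by positivity))
    unfold cR
    nlinarith
  have c6 := abs_le.1 (hok.2.2 (some i) g c3')
  have c7 := hL i
  unfold nJ at c6 c7
  simp only at c6 c7
  linarith [c6.1, c6.2]

/-- **A good scale dominates the small scales.** -/
theorem dom_J {C₀ : ℝ} (hS : S.Ne)
    (hpos : ∀ (τ : ℝ) (J : ℕ) (F : Fam m J) (A : F.Ω → Prop), S.St τ J F A → 0 < Pe F.p A)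
    (htm : TmC S C₀) {q : Cmp m D} {s : Fin D → ℝ → ℝ} {sh K T A B Jm Lm : ℝ} {G : Set ℝ}
    (hF : FmJ S q s G) (hC : CCh S f y q s G Jm Lm K) {pG : ℝ → ℝ} (hp : NrG G pG)
    (hJ : 1 ≤ Jm) (hLm : 0 ≤ Lm) (hK : 0 ≤ K) (hT : 6 * Jm + 2 * Lm + 9 ≤ T)
    {C : ℕ} {σ : ℚ} (hσ0 : 0 < σ) (hσ1 : σ ≤ 1) {k₁ : ℕ}
    {η : ℚ → ℝ} (hη : ∀ w : ℚ, A ≤ w → (w : ℝ) + sh ≤ 1 → RNum S f (vg ((w : ℝ) + sh)) (η w))
    (hfr : FqJ S f y q s sh G pG K T A B C σ k₁) {θ : ℕ → ℚ → (Option (Fin D) → ℚ) → ℝ}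
    (hθ : NmJ S f y q s sh G pG K T A B C σ k₁ θ) {κ g₀ : ℝ} (hg₀ : g₀ + sh ∈ G) {j k₂ : ℕ}
    (hj : k₁ ≤ j) (hk₂ : (1 / 2 : ℝ) ^ k₂ * (4 * cL C D) ≤ 1)
    (hA : A + (2 * cL C D + 2) * (1 / 2) ^ j ≤ g₀) (hB : g₀ + (2 * cL C D + 2) * (1 / 2) ^ j ≤ B)
    (hgood : GdJ S f y q s sh G pG K T C σ θ κ j g₀) :
    Dom (nJ q s sh G pG) (tG D θ) (AdmG D (nJ q s sh G pG) sh G C σ)
      ((C : ℚ) + 7 * D + 12) ((C : ℚ) + 7 * D + 12) ((σ : ℝ) / (100 * T * (K + 4) * cL C D))
      ((K + 5) * cL C D) k₂ κ j g₀ := by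
  classical
  have s0 : (0 : ℝ) < σ := by exact_mod_cast hσ0
  have s1 : (σ : ℝ) ≤ 1 := by exact_mod_cast hσ1
  have hD0 : (0 : ℝ) ≤ D := Nat.cast_nonneg D
  have hcLd : cL C D = C + 7 * D + 12 := rfl
  have hcNd : cN C D = C + 3 * D + 4 := rfl
  have hC0 : (0 : ℝ) ≤ C := Nat.cast_nonneg C
  have hcL : 0 < cL C D := by rw [hcLd]; positivity
  have hT15 : 15 ≤ T := by linarith
  have hT0 : 0 < T := by linarith
  obtain ⟨r, hr⟩ : ∃ r : ℝ, r = (1 / 2) ^ j := ⟨_, rfl⟩
  have hr0 : 0 < r := by rw [hr]; positivity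
  have hqj : (qL C D j : ℝ) = cL C D * r := by rw [qL_cast, hr]
  have hgood' := hgood
  unfold GdJ at hgood
  rw [← hr] at hA hB hgood
  have hsr : 0 < (σ : ℝ) * r := mul_pos s0 hr0
  have hsr1 : (σ : ℝ) * r ≤ r := by nlinarith
  have hsT : (σ : ℝ) / T ≤ σ / 15 := div_le_div_of_nonneg_left s0.le (by norm_num) hT15
  have hsTr : (σ : ℝ) / T * r ≤ σ * r / 15 := by
    have := mul_le_mul_of_nonneg_right hsT hr0.le
    linarith
  have hCr : (0 : ℝ) ≤ C * r := by positivity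
  have hdr : (0 : ℝ) ≤ D * r := by positivity
  have hcLr : cL C D * r = C * r + 7 * (D * r) + 12 * r := by rw [hcLd]; ring
  have hcNr : cN C D * r = C * r + 3 * (D * r) + 4 * r := by rw [hcNd]; ring
  have hn0 : nJ q s sh G pG none g₀ = 0 := by
    unfold nJ
    simp only
    exact Metric.infDist_zero_of_mem hg₀
  -- the digits of the big scale
  obtain ⟨pn, pn1, pn2⟩ : ∃ x : ℚ, C * r + 3 * (D * r) + 11 / 3 * r < (x : ℝ) ∧
      (x : ℝ) < C * r + 3 * (D * r) + 4 * r := exists_rat_btwn (by linarith)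
  have hst : ∀ i : Fin D, ∃ p : ℚ, nJ q s sh G pG (some i) g₀ +
      (C * r + r + 3 * (((D : ℝ) - (i : ℕ)) * r)) + r / 3 < p ∧
      (p : ℝ) < nJ q s sh G pG (some i) g₀ +
      (C * r + r + 3 * (((D : ℝ) - (i : ℕ)) * r)) + 2 * r / 3 :=
    fun i => exists_rat_btwn (by linarith)
  choose N₁ hN1 hN2 using hst
  obtain ⟨N, hNn, hNs⟩ : ∃ N : Option (Fin D) → ℚ, N none = pn ∧ ∀ i, N (some i) = N₁ i :=
    ⟨fun i => i.elim pn N₁, rfl, fun _ => rfl⟩
  have hlow : ∀ i : Fin D, ∃ p : ℚ,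
      nJ q s sh G pG (some i) g₀ - 3 * (σ * r) * ((i : ℕ) + 1) < p ∧
      (p : ℝ) < nJ q s sh G pG (some i) g₀ - 3 * (σ * r) * ((i : ℕ) + 1) + σ * r / 2 :=
    fun i => exists_rat_btwn (by linarith)
  choose L₀ hL1 hL2 using hlow
  obtain ⟨L, hLn, hLs⟩ : ∃ L : Option (Fin D) → ℚ, L none = pn ∧ ∀ i, L (some i) = L₀ i :=
    ⟨fun i => i.elim pn L₀, rfl, fun _ => rfl⟩
  have hid1 : ∀ i : Fin D, (1 : ℝ) * r ≤ ((D : ℝ) - (i : ℕ)) * r := fun i => by
    have : ((i : ℕ) : ℝ) + 1 ≤ D := by exact_mod_cast i.2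
    exact mul_le_mul_of_nonneg_right (by linarith) hr0.le
  have hid2 : ∀ i : Fin D, ((D : ℝ) - (i : ℕ)) * r ≤ D * r := fun i => by
    have : (0 : ℝ) ≤ ((i : ℕ) : ℝ) := Nat.cast_nonneg _
    exact mul_le_mul_of_nonneg_right (by linarith) hr0.le
  have hLN : ∀ i, L i ≤ N i := by
    intro i
    rcases i with _ | i
    · rw [hLn, hNn]
    · rw [hLs, hNs]
      have e1 : (L₀ i : ℝ) ≤ N₁ i := by
        have e2 : 0 ≤ 3 * (σ * r) * ((i : ℕ) : ℝ) := by positivity
        linarith [hL2 i, hN1 i, hid1 i]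
      exact_mod_cast e1
  have hLb : ∀ i, nJ q s sh G pG i g₀ - cN C D * r ≤ L i := by
    intro i
    rcases i with _ | i
    · rw [hn0, hLn]
      linarith
    · rw [hLs]
      have e1 : ((i : ℕ) : ℝ) + 1 ≤ D := by exact_mod_cast i.2
      have e2 : 3 * ((σ : ℝ) * r) * (((i : ℕ) : ℝ) + 1) ≤ 3 * r * D := by
        have := mul_le_mul hsr1 e1 (by positivity) hr0.le
        linarith
      linarith [hL1 i]
  have hNb : ∀ i, (N i : ℝ) ≤ nJ q s sh G pG i g₀ + cN C D * r := by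
    intro i
    rcases i with _ | i
    · rw [hn0, hNn]
      linarith
    · rw [hNs]
      linarith [hN2 i, hid2 i]
  have hNst : ∀ l i, rkG D l < rkG D i →
      (N i : ℝ) - nJ q s sh G pG i g₀ + 2 * (σ : ℝ) * r ≤ N l - nJ q s sh G pG l g₀ := by
    intro l i hli
    rcases i with _ | i
    · exact absurd hli (Nat.not_lt_zero _)
    · rcases l with _ | l
      · rw [hn0, hNn, hNs]
        linarith [hN2 i, hid2 i]
      · rw [hNs, hNs]
        have e1 : (((l : Fin D) : ℕ) : ℝ) + 1 ≤ ((i : ℕ) : ℝ) := by exact_mod_cast hli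
        have e2 := mul_le_mul_of_nonneg_right e1 hr0.le
        linarith [hN1 l, hN2 i]
  have hLst : ∀ l i, rkG D l < rkG D i →
      (L i : ℝ) - nJ q s sh G pG i g₀ + 2 * (σ : ℝ) * r ≤ L l - nJ q s sh G pG l g₀ := by
    intro l i hli
    rcases i with _ | i
    · exact absurd hli (Nat.not_lt_zero _)
    · rcases l with _ | l
      · rw [hn0, hLn, hLs]
        have e2 : 0 ≤ 3 * ((σ : ℝ) * r) * ((i : ℕ) : ℝ) := by positivity
        linarith [hL2 i]
      · rw [hLs, hLs]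
        have e1 : (((l : Fin D) : ℕ) : ℝ) + 1 ≤ ((i : ℕ) : ℝ) := by exact_mod_cast hli
        have e2 := mul_le_mul_of_nonneg_left e1 (by positivity : 0 ≤ 3 * ((σ : ℝ) * r))
        linarith [hL1 l, hL2 i]
  have hLz : ∀ i : Fin D, (L (some i) : ℝ) ≤
      nJ q s sh G pG (some i) g₀ - (σ : ℝ) / T * (1 / 2) ^ j := by
    intro i
    rw [hLs, ← hr]
    have e2 : 0 ≤ 3 * ((σ : ℝ) * r) * ((i : ℕ) : ℝ) := by positivity
    linarith [hL2 i]
  obtain ⟨q0, q1⟩ := hfr.win j hj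
  have hfid : ∀ (J : ℕ) (F : Fam m J), ∃ φ : α J F → α J F, ∀ ω, f J F ω = φ (f J F ω) :=
    fun J F => ⟨fun x => x, fun _ => rfl⟩
  have hyid : ∀ (J : ℕ) (F : Fam m J), ∃ φ : γ J F → γ J F, ∀ ω, y J F ω = φ (y J F ω) :=
    fun J F => ⟨fun x => x, fun _ => rfl⟩
  refine ⟨fun W => θ j W N, ?_, ?_⟩
  · -- the function is antitone
    intro W W' c1 c2 c3
    rw [← hr] at c1 c3 ⊢
    have c2' : (W : ℝ) ≤ W' := by exact_mod_cast c2
    obtain ⟨g1, g2, g3, g4, g5, g6, g7⟩ := hgood L N W W' hLb hLN hNb hLst hNst (by linarith) c2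
      (by linarith)
    have WA : A ≤ W := by linarith
    have WB : (W : ℝ) ≤ B := by linarith
    have WA' : A ≤ W' := by linarith
    have WB' : (W' : ℝ) ≤ B := by linarith
    have z1 := zero_J hS hpos htm hF hp hK hη hfr hθ hj hLz WA WB (by
      rw [abs_le, ← hr]
      constructor <;> linarith) g2
    have z2 := zero_J hS hpos htm hF hp hK hη hfr hθ hj hLz WA' WB' (by
      rw [abs_le, ← hr]
      constructor <;> linarith) g3
    rw [z1, z2] at g1
    have hqj0 : (0 : ℝ) ≤ qL C D j := by exact_mod_cast q0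
    refine ⟨?_, by linarith⟩
    exact NN.anti hS hpos hfid (fun J F => vg_mono (by push_cast; linarith) (by
      push_cast; linarith) J F) hyid
      (hη (W + qL C D j) (by push_cast; linarith) (by push_cast; linarith))
      (hη (W' + qL C D j) (by push_cast; linarith) (by push_cast; linarith))
      (hθ j hj W N WA WB g4) (hθ j hj W' N WA' WB' g5) (hfr.exs j hj W N WA WB g4)
      (hfr.exs j hj W' N WA' WB' g5) g6
  · -- the small scales
    intro g hfl hgg k hk P P' w w' hadm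
    obtain ⟨hgG, hP0, hP', w1, w2, w3⟩ := hadm
    have w2' : (w : ℝ) ≤ w' := by exact_mod_cast w2
    obtain ⟨p1, p2, p3, p4, p5⟩ := hP'
    have hfl' := hfl
    rw [← hr] at hfl hgg
    obtain ⟨ρ, hρ⟩ : ∃ ρ : ℝ, ρ = (1 / 2) ^ k := ⟨_, rfl⟩
    have hρ0 : 0 < ρ := by rw [hρ]; positivity
    have hρr : ρ * (4 * cL C D) ≤ r := by
      have e1 : ρ ≤ r * (1 / 2) ^ k₂ := by
        rw [hρ, hr, ← pow_add]
        exact pow_le_pow_of_le_one (by norm_num) (by norm_num) hk
      have e2 := mul_le_mul_of_nonneg_right e1 (show 0 ≤ 4 * cL C D by positivity)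
      have e3 := mul_le_mul_of_nonneg_left hk₂ hr0.le
      linarith
    have hk1 : k₁ ≤ k := hj.trans (by omega)
    have hqk : (qL C D k : ℝ) = cL C D * ρ := by rw [qL_cast, hρ]
    rw [← hρ] at p1 p2 p4 p5 w1 w3
    have hCρ : (0 : ℝ) ≤ C * ρ := by positivity
    have hdρ : (0 : ℝ) ≤ D * ρ := by positivity
    have hcLρ : cL C D * ρ = C * ρ + 7 * (D * ρ) + 12 * ρ := by rw [hcLd]; ring
    have hcNρ : cN C D * ρ = C * ρ + 3 * (D * ρ) + 4 * ρ := by rw [hcNd]; ring
    have hsρ1 : (σ : ℝ) * ρ ≤ ρ := by nlinarith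
    have hsρ : 0 < (σ : ℝ) * ρ := mul_pos s0 hρ0
    push_cast at hgg
    rw [← hcLd, abs_le] at hgg
    -- `t`
    have t1 : ∀ v : ℚ, tG D θ k v P = 0 := fun v => by
      unfold tG
      exact if_pos hP0
    have hPn : P' none ≠ 0 := by
      intro h0
      rw [h0] at p1
      push_cast at p1
      linarith
    have t2 : ∀ v : ℚ, tG D θ k v P' = θ k v P' := fun v => by
      unfold tG
      exact if_neg hPn
    rw [t1, t1, t2, t2, sub_zero, sub_zero]
    simp only
    -- flatness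
    obtain ⟨ηf, hηf⟩ : ∃ x : ℝ, x = (σ : ℝ) / (100 * T * (K + 4) * cL C D) := ⟨_, rfl⟩
    have hηf0 : 0 < ηf := by rw [hηf]; positivity
    have hηL : ηf * ((K + 4) * cL C D) = σ / T / 100 := by
      rw [hηf]
      field_simp
    rw [← hηf] at hfl hfl'
    have hng0 : nJ q s sh G pG none g = 0 := by
      unfold nJ
      simp only
      exact Metric.infDist_zero_of_mem hgG
    have hNL : cN C D ≤ cL C D := by rw [hcLd, hcNd]; linarith
    have hN0 : 0 ≤ cN C D := by rw [hcNd]; positivity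
    have hcLρ0 : 0 < cL C D * ρ := by positivity
    have hρr' : cL C D * ρ ≤ cL C D * r := by
      refine mul_le_mul_of_nonneg_left ?_ hcL.le
      have : 1 * ρ ≤ ρ * (4 * cL C D) := by
        rw [mul_comm]
        refine mul_le_mul_of_nonneg_left ?_ hρ0.le
        rw [hcLd]
        linarith
      linarith
    have hKρ : K * (cL C D * ρ) ≤ K * (cL C D * r) := mul_le_mul_of_nonneg_left hρr' hK
    have hNLρ := mul_le_mul_of_nonneg_right hNL hρ0.le
    -- admissible digits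
    have hPst : ∀ l i, rkG D l < rkG D i →
        (P' i : ℝ) - nJ q s sh G pG i g + 2 * (σ : ℝ) * ρ ≤
          P' l - nJ q s sh G pG l g := by
      intro l i hli
      rcases i with _ | i
      · exact absurd hli (Nat.not_lt_zero _)
      · rcases l with _ | l
        · rw [hng0]
          linarith [p4 i]
        · exact p5 l i hli
    have hokP : ∀ v : ℚ, |(v : ℝ) - g| ≤ cN C D * ρ → OkJ q s sh G pG K T C σ k v P' := by
      intro v hv
      refine ok_flat (C := cN C D) hηf0.le hN0 (by unfold cR; positivity) ?_ ?_ ?_ hfl (by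
        rw [← hρ]
        unfold cR
        linarith) (by rw [← hρ]; exact hv) (fun i => ?_) (fun l i hli => by
          rw [← hρ]
          exact hPst l i hli)
      · have e1 : cR K C D + 2 * cN C D ≤ 100 * ((K + 4) * cL C D) := by
          unfold cR
          have : 0 ≤ K * cL C D := by positivity
          linarith
        have e2 := mul_le_mul_of_nonneg_left e1 hηf0.le
        have e3 : 0 < (σ : ℝ) / T := by positivity
        linarith
      · linarith
      · have : 0 ≤ 3 * (σ : ℝ) * (D + 1) := by positivity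
        linarith
      · rw [← hρ]
        rcases i with _ | i
        · rw [hng0]
          constructor <;> linarith
        · have := p3 i
          have := p4 i
          constructor <;> linarith
    have wg : |(w : ℝ) - g| ≤ cN C D * ρ := by
      rw [abs_le]
      constructor <;> linarith
    have wg' : |(w' : ℝ) - g| ≤ cN C D * ρ := by
      rw [abs_le]
      constructor <;> linarith
    have hwA : A ≤ w := by linarith
    have hwB' : (w' : ℝ) ≤ B := by linarith
    have hwB : (w : ℝ) ≤ B := w2'.trans hwB'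
    have hwA' : A ≤ w' := hwA.trans w2'
    -- the windows of the big scale
    obtain ⟨W, hW0⟩ : ∃ W : ℚ, W = w + ((C : ℚ) + 7 * D + 12) * (1 / 2) ^ k -
        ((C : ℚ) + 7 * D + 12) * (1 / 2) ^ j := ⟨_, rfl⟩
    obtain ⟨W', hW0'⟩ : ∃ W' : ℚ, W' = w' + ((C : ℚ) + 7 * D + 12) * (1 / 2) ^ k -
        ((C : ℚ) + 7 * D + 12) * (1 / 2) ^ j := ⟨_, rfl⟩
    rw [← hW0, ← hW0']
    have hWr : (W : ℝ) = w + cL C D * ρ - cL C D * r := by
      rw [hW0, hρ, hr, hcLd]
      push_cast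
      ring
    have hWr' : (W' : ℝ) = w' + cL C D * ρ - cL C D * r := by
      rw [hW0', hρ, hr, hcLd]
      push_cast
      ring
    have hWW : W ≤ W' := by
      have : (W : ℝ) ≤ W' := by linarith
      exact_mod_cast this
    have b1 : g₀ - r ≤ W := by linarith
    have b2 : (W' : ℝ) ≤ g₀ + r := by linarith
    have hWW' : (W : ℝ) ≤ W' := by exact_mod_cast hWW
    obtain ⟨-, -, -, g4, g5, g6, -⟩ := hgood L N W W' hLb hLN hNb hLst hNst (by linarith) hWW
      (by linarith)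
    have WA : A ≤ W := by linarith
    have WB : (W : ℝ) ≤ B := by linarith
    have WA' : A ≤ W' := by linarith
    have WB' : (W' : ℝ) ≤ B := by linarith
    -- the records
    have hrec : ((W + qL C D j : ℚ) : ℝ) + sh = ((w + qL C D k : ℚ) : ℝ) + sh := by
      push_cast
      rw [hqj, hqk, hWr]
      ring
    have hrec' : ((W' + qL C D j : ℚ) : ℝ) + sh = ((w' + qL C D k : ℚ) : ℝ) + sh := by
      push_cast
      rw [hqj, hqk, hWr']
      ring
    obtain ⟨qk0, qk1⟩ := hfr.win k hk1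
    have qk0' : (0 : ℝ) ≤ qL C D k := by exact_mod_cast qk0
    have n1 := hθ j hj W N WA WB g4
    have n1' := hθ j hj W' N WA' WB' g5
    rw [hrec] at n1
    rw [hrec'] at n1' g6
    have n0 := hθ k hk1 w P' hwA hwB (hokP w wg)
    have n0' := hθ k hk1 w' P' hwA' hwB' (hokP w' wg')
    -- the change of the charts
    have hch := FrT.chgs hpos hfr (by positivity) hk1 (x := w) (z := w') (N := P') hwA hwB'
      (fun v c1 c2 => hokP v (by
        rw [abs_le]
        constructor <;> linarith)) w w' le_rfl w2 le_rfl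
    -- the jets at the small scale
    have hv1 : ((w + qL C D k : ℚ) : ℝ) + sh ≤ 1 := by
      push_cast
      linarith
    have hsup : Few S f (vg (((w + qL C D k : ℚ) : ℝ) + sh)) y
        (qN q s (pG ((W : ℝ) + sh)) (fun i => (N (some i) : ℝ)))
        (qN q s (pG ((w : ℝ) + sh)) (fun i => (P' (some i) : ℝ))) := by
      obtain ⟨v, hv⟩ : ∃ v : ℝ, v = ((w + qL C D k : ℚ) : ℝ) + sh := ⟨_, rfl⟩
      have hvw : v = w + cL C D * ρ + sh := by
        rw [hv]
        push_cast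
        rw [hqk]
      rw [← hv] at hv1 ⊢
      -- the constants
      obtain ⟨a, ha⟩ : ∃ a : ℝ, a = (C + 1) / cL C D := ⟨_, rfl⟩
      obtain ⟨z, hz⟩ : ∃ z : ℝ, z = 1 / cL C D := ⟨_, rfl⟩
      have hz0 : 0 < z := by rw [hz]; positivity
      have hzL : z * cL C D = 1 := by
        rw [hz]
        field_simp
      have haL : a * cL C D = C + 1 := by
        rw [ha]
        field_simp
      have haz : a = (C + 1) * z := by
        rw [ha, hz]
        ring
      have hz1 : z < 1 := by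
        rw [hz, div_lt_one hcL, hcLd]
        linarith
      obtain ⟨ϑ, hϑ⟩ : ∃ x : ℝ, x = z / (4 * Jm) := ⟨_, rfl⟩
      obtain ⟨εs, hεs⟩ : ∃ x : ℝ, x = z / (8 * (Jm + Lm)) := ⟨_, rfl⟩
      have hJ0 : 0 < Jm := by linarith
      have hϑ0 : 0 < ϑ := by rw [hϑ]; positivity
      have hεs0 : 0 < εs := by rw [hεs]; positivity
      have hJϑ : Jm * ϑ = z / 4 := by
        rw [hϑ]
        field_simp
      have hJε : (Jm + Lm) * εs = z / 8 := by
        rw [hεs]
        field_simp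
      have hϑz : ϑ ≤ z / 4 := by
        have : 1 * ϑ ≤ Jm * ϑ := mul_le_mul_of_nonneg_right hJ hϑ0.le
        linarith
      have hεJ : εs ≤ Jm * εs := by
        have : 1 * εs ≤ Jm * εs := mul_le_mul_of_nonneg_right hJ hεs0.le
        linarith
      have hLε : 0 ≤ Lm * εs := by positivity
      obtain ⟨n', hn'⟩ : ∃ n' : ℕ, (1 - ϑ) ^ n' * (cL C D * r) ≤ cL C D * ρ := by
        obtain ⟨n', hn'⟩ := exists_pow_lt_of_lt_one (show 0 < ρ / r by positivity)
          (show 1 - ϑ < 1 by linarith)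
        refine ⟨n', ?_⟩
        rw [lt_div_iff₀ hr0] at hn'
        have := mul_le_mul_of_nonneg_left hn'.le hcL.le
        linarith
      have hηK : ηf * (K + 4) ≤ εs := by
        have h1 : ηf * (K + 4) = σ / T / 100 * z := by
          have h2 : ηf * (K + 4) = ηf * ((K + 4) * cL C D) * z := by
            rw [mul_assoc ηf, mul_assoc (K + 4), mul_comm (cL C D), hzL, mul_one]
          rw [h2, hηL]
        rw [h1, hεs, div_div, div_mul_eq_mul_div]
        rw [div_le_div_iff₀ (by positivity) (by positivity)]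
        have h3 : (σ : ℝ) * (8 * (Jm + Lm)) ≤ T * 100 := by
          have h4 : (σ : ℝ) * (8 * (Jm + Lm)) ≤ 1 * (8 * (Jm + Lm)) :=
            mul_le_mul_of_nonneg_right s1 (by positivity)
          linarith
        calc (σ : ℝ) * z * (8 * (Jm + Lm)) = z * (σ * (8 * (Jm + Lm))) := by ring
          _ ≤ z * (T * 100) := mul_le_mul_of_nonneg_left h3 hz0.le
      have hdist : ∀ t, cL C D * ρ ≤ t → t ≤ cL C D * r → ∀ x, v - (K + 2) * t ≤ x → x ≤ v →
          ∀ i, |nJ q s sh G pG i (x - sh) - nJ q s sh G pG i g| ≤ εs * t := by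
        intro t c1 c2 x c3 c4 i
        have ht0 : 0 < t := hcLρ0.trans_le c1
        have hKt : K * t ≤ K * (cL C D * r) := mul_le_mul_of_nonneg_left c2 hK
        have hKt0 : 0 ≤ K * t := mul_nonneg hK ht0.le
        have c5 : |x - sh - g| ≤ (K + 4) * t := by
          rw [abs_le]
          constructor <;> linarith
        have c6 := hfl i (x - sh) (c5.trans (by linarith))
        have c7 := mul_le_mul_of_nonneg_left c5 hηf0.le
        have c9 := mul_le_mul_of_nonneg_right hηK ht0.le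
        linarith
      refine few_pi hpos fun i => sup_chainJ hpos hF hC hJ hLm hK (a := a) (b := 3 * z) (e := z)
        (θ := ϑ) (ε := εs) (by rw [haz]; positivity) (by linarith) hz0.le hϑ0.le hεs0
        (by linarith) ?_ (v := v) (s' := cL C D * ρ)
        (n := fun l => nJ q s sh G pG (some l) g) hv1 hcLρ0 (hp.mem _) ?_ i ?_ n'
        (cL C D * r) (pG ((W : ℝ) + sh)) (fun l => (N (some l) : ℝ)) hρr' hn'
        (fun t c1 c2 => ⟨fun x c3 c4 => ?_,
          fun l v' hv' c3 c4 => ?_⟩) (hp.mem _) ?_ (fun l => ?_)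
      · have e2 : ((C : ℝ) + 4 * D + 6) * z ≤ cL C D * z := by
          refine mul_le_mul_of_nonneg_right ?_ hz0.le
          rw [hcLd]
          linarith
        have e3 : 0 ≤ (D : ℝ) * z := by positivity
        rw [haz]
        linarith
      · have e1 := hdist (cL C D * ρ) le_rfl hρr' ((w : ℝ) + sh) (by
          have : 0 ≤ K * (cL C D * ρ) := by positivity
          rw [hvw]; linarith) (by
          rw [hvw]; linarith) none
        rw [hng0, sub_zero, abs_le] at e1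
        unfold nJ at e1
        simp only at e1
        rw [sub_add_cancel, ← hp.dst] at e1
        rw [show v - cL C D * ρ = (w : ℝ) + sh by rw [hvw]; ring, abs_sub_comm]
        exact e1.2
      · have e1 := p4 i
        have e2 : (a + 3 * z * ((D : ℝ) - (i : ℕ))) * (cL C D * ρ) =
            (C + 1) * ρ + 3 * ((D : ℝ) - (i : ℕ)) * ρ := by
          calc (a + 3 * z * ((D : ℝ) - (i : ℕ))) * (cL C D * ρ)
              = (a * cL C D) * ρ + 3 * (z * cL C D) * ((D : ℝ) - (i : ℕ)) * ρ := by ring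
            _ = _ := by rw [haL, hzL]; ring
        rw [e2]
        have e3 : (0 : ℝ) ≤ 3 * ((D : ℝ) - (i : ℕ)) * ρ := by
          have : ((i : ℕ) : ℝ) + 1 ≤ D := by exact_mod_cast i.2
          have : 0 ≤ (D : ℝ) - (i : ℕ) := by linarith
          positivity
        linarith
      · have e1 := hdist t c1 c2 x c3 c4 none
        rw [hng0, sub_zero, abs_le] at e1
        unfold nJ at e1
        simp only at e1
        rw [sub_add_cancel, ← hp.dst] at e1
        refine ⟨pG x, hp.mem x, ?_⟩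
        rw [abs_sub_comm]
        exact e1.2
      · have e1 := hdist t c1 c2 v' c3 c4 (some l)
        refine le_trans (le_of_eq ?_) e1
        congr 2
        unfold nJ
        simp only
        rw [sub_add_cancel, hp.of_mem hv']
      · have e1 := hdist (cL C D * r) hρr' le_rfl ((W : ℝ) + sh) (by
          have : 0 ≤ K * (cL C D * r) := by positivity
          rw [hvw]; linarith) (by
          rw [hvw]; linarith) none
        rw [hng0, sub_zero, abs_le] at e1
        unfold nJ at e1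
        simp only at e1
        rw [sub_add_cancel, ← hp.dst] at e1
        rw [show v - cL C D * r = (W : ℝ) + sh by rw [hvw, hWr]; ring, abs_sub_comm]
        exact e1.2
      · show _ ∧ _
        rw [hNs]
        have e3 := hN1 l
        have e4 := hN2 l
        have hKr : 0 ≤ K * (cL C D * r) := by positivity
        have e5 := hfl (some l) g₀ (by
          rw [abs_le]
          constructor <;> linarith)
        have e6 : |g₀ - g| ≤ (K + 4) * (cL C D * r) := by
          rw [abs_le]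
          constructor <;> linarith
        have e7 := mul_le_mul_of_nonneg_left e6 hηf0.le
        have e8 : ηf * ((K + 4) * (cL C D * r)) = σ / T * r / 100 := by
          calc ηf * ((K + 4) * (cL C D * r)) = (ηf * ((K + 4) * cL C D)) * r := by ring
            _ = σ / T * r / 100 := by rw [hηL]; ring
        have e9 := abs_le.1 (e5.trans e7)
        have e10 : (a + 3 * z * ((D : ℝ) - (l : ℕ))) * (cL C D * r) =
            (C + 1) * r + 3 * (((D : ℝ) - (l : ℕ)) * r) := by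
          calc (a + 3 * z * ((D : ℝ) - (l : ℕ))) * (cL C D * r)
              = (a * cL C D) * r + 3 * (z * cL C D) * (((D : ℝ) - (l : ℕ)) * r) := by ring
            _ = _ := by rw [haL, hzL]; ring
        have e11 : z * (cL C D * r) = r := by
          rw [← mul_assoc, hzL, one_mul]
        rw [e10, e11]
        constructor <;> linarith [e9.1, e9.2]
    have key := NN.mixed hS hpos hfid (fun J F => vg_mono (by push_cast; linarith) (by
      push_cast; linarith) J F) hyid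
      (hη (w + qL C D k) (by push_cast; linarith) (by push_cast; linarith))
      (hη (w' + qL C D k) (by push_cast; linarith) (by push_cast; linarith))
      n0 n1 n0' n1' (hfr.exs k hk1 w P' hwA hwB (hokP w wg)) (hfr.exs j hj W N WA WB g4)
      (hfr.exs k hk1 w' P' hwA' hwB' (hokP w' wg')) (hfr.exs j hj W' N WA' WB' g5) hsup g6 hch.2
    linarith

end Pool.FRJ
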