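import Pool.Agent.H89.FRJ.Def
import Pool.Agent.H91.FR.FrG

/-!
# The conditions `FrT` for a family with a change of charts

`nJ`: the natural functions; `few_okJ`: the change of charts for digits in a staircase; `frq_J`: the
conditions `FrT`.
-/

set_option autoImplicit false

namespace Pool.FRJ

open Finset Real MvPolynomial
open Pool.Agent.H49.Ent Pool.Agent.H32.Dense Pool.STK Pool.KA Pool.KSAT Pool.K2S Pool.PB Pool.GEN
open Pool.S6C Pool.RCD Pool.LA91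

variable {m D : ℕ} {α γ : ∀ J : ℕ, Fam m J → Type}
  {f : ∀ (J : ℕ) (F : Fam m J), F.Ω → α J F} {y : ∀ (J : ℕ) (F : Fam m J), F.Ω → γ J F}
  {S S' : PCl m}

/-- The natural functions: the distance to `G`, the natural digits of the jets. -/
noncomputable def nJ (q : Cmp m D) (s : Fin D → ℝ → ℝ) (sh : ℝ) (G : Set ℝ) (pG : ℝ → ℝ) :
    Option (Fin D) → ℝ → ℝ := fun i x =>
  match i with
  | none => Metric.infDist (x + sh) G
  | some i => s i (pG (x + sh)) - q.j i * pG (x + sh)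

/-- **The change of charts for digits in a staircase.** -/
theorem few_okJ {q : Cmp m D} {s : Fin D → ℝ → ℝ} {G : Set ℝ} {Jm L K : ℝ}
    (hC : CCh S f y q s G Jm L K) {sh : ℝ} {pG : ℝ → ℝ} (hp : NrG G pG)
    (hJ : 1 ≤ Jm) (hL : 0 ≤ L) (hK : 0 ≤ K) {M σ τ C₁ δ C0 : ℝ} (hM : 0 ≤ M) (hτ : 0 < τ)
    (hδ : 0 ≤ δ) (hσ : Jm * (2 * (δ + 2 * τ)) + 2 * L * τ ≤ σ)
    (hC0 : M + (2 * Jm + 3) * (δ + 2 * τ) + 2 * L * τ ≤ C0)
    (hC₁ : (δ + 2 * τ) + K * (M + 2 * (δ + 2 * τ) + 2 * L * τ) ≤ C₁) (hC01 : C0 ≤ C₁)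
    {k : ℕ} {W qq : ℚ} (hq : (qq : ℝ) = C0 * (1 / 2) ^ k) {w₁ w₂ : ℝ} (a1 : w₁ ∈ G) (a2 : w₂ ∈ G)
    (r1 : |w₁ - (W + sh)| ≤ (δ + 2 * τ) * (1 / 2) ^ k)
    (r2 : |w₂ - (W + sh)| ≤ (δ + 2 * τ) * (1 / 2) ^ k) (ho : ((W + qq : ℚ) : ℝ) + sh ≤ 1)
    {N : Option (Fin D) → ℚ} (hok : Ok (rkG D) (nJ q s sh G pG) M σ τ C₁ k W N)
    {p₁ : Fin D → ℝ} (hp₁ : ∀ l, s l w₁ - τ * (1 / 2) ^ k ≤ p₁ l) (i : Fin D) {p₂ N₂ : ℝ}
    (hp₂ : s i w₂ - τ * (1 / 2) ^ k ≤ p₂) (hN : N₂ ≤ N (some i)) :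
    Few S f (vg (((W + qq : ℚ) : ℝ) + sh)) y (qC q p₁ w₁ (fun l => (N (some l) : ℝ)))
      (qJet m (q.I i) (q.k i) (q.j i) w₂ p₂ N₂) := by
  obtain ⟨r, hr⟩ : ∃ r : ℝ, r = (1 / 2) ^ k := ⟨_, rfl⟩
  have hr0 : 0 < r := by rw [hr]; positivity
  obtain ⟨k1, k2, k3⟩ := hok
  rw [← hr] at k1 k2 k3 hq r1 r2 hp₁ hp₂
  obtain ⟨x, hx⟩ : ∃ x : ℝ, x = W + sh := ⟨_, rfl⟩
  have how : ((W + qq : ℚ) : ℝ) + sh = x + C0 * r := by
    push_cast
    rw [hq, hx]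
    ring
  rw [how] at ho ⊢
  rw [← hx] at r1 r2
  have hτr : 0 < τ * r := mul_pos hτ hr0
  have hδr : 0 ≤ δ * r := mul_nonneg hδ hr0.le
  have hMr : 0 ≤ M * r := mul_nonneg hM hr0.le
  have hLτr : 0 ≤ L * (τ * r) := mul_nonneg hL hτr.le
  obtain ⟨ρ, hρ⟩ : ∃ ρ : ℝ, ρ = 2 * ((δ + 2 * τ) * r) := ⟨_, rfl⟩
  have hρ0 : 0 ≤ ρ := by rw [hρ]; positivity
  have hCC : C0 * r ≤ C₁ * r := mul_le_mul_of_nonneg_right hC01 hr0.le
  have hσr : Jm * ρ + L * (2 * (τ * r)) ≤ σ * r := by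
    have := mul_le_mul_of_nonneg_right hσ hr0.le
    rw [hρ]
    linarith
  have hC0r : M * r + (Jm + 1) * ρ + ρ / 2 + L * (2 * (τ * r)) ≤ C0 * r := by
    have := mul_le_mul_of_nonneg_right hC0 hr0.le
    rw [hρ]
    linarith
  have hC1r : ρ / 2 + K * (M * r + ρ + L * (2 * (τ * r))) ≤ C₁ * r := by
    have := mul_le_mul_of_nonneg_right hC₁ hr0.le
    rw [hρ]
    linarith
  have hρ2 : (δ + 2 * τ) * r = ρ / 2 := by rw [hρ]; ring
  rw [hρ2, abs_le] at r1 r2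
  have hJρ : 0 ≤ Jm * ρ := mul_nonneg (by linarith) hρ0
  have hτρ : 2 * (τ * r) ≤ ρ / 2 := by rw [hρ]; linarith
  have hKx : 0 ≤ K * (M * r + ρ + L * (2 * (τ * r))) := by positivity
  -- the gaps
  have hgap : ∀ v : ℝ, |v - x| ≤ C₁ * r → |v - pG v| ≤ 2 * (τ * r) := by
    refine gap_of hp (by linarith) (by linarith) fun v hv => ?_
    have h1 := k3 none (v - sh) (by
      rw [show v - sh - W = v - x by rw [hx]; ring]
      exact hv)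
    unfold nJ at h1
    simp only at h1
    rw [sub_add_cancel, ← hx] at h1
    exact h1
  have hin : ∀ v : ℝ, w₁ - K * (M * r + ρ + L * (2 * (τ * r))) ≤ v → v ≤ x + C0 * r →
      |v - x| ≤ C₁ * r := by
    intro v c1 c2
    rw [abs_le]
    constructor <;> linarith [r1.1]
  obtain ⟨n, hn⟩ : ∃ n : Fin D → ℝ, n = fun l => nJ q s sh G pG (some l) W := ⟨_, rfl⟩
  refine hC (x + C0 * r) (M * r) (2 * (τ * r)) ρ w₁ w₂ n (fun l => (N (some l) : ℝ)) p₁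
    ⟨ho, hMr, by linarith, a1, a2, ?_, ?_, ⟨fun v c1 c2 => ⟨pG v, hp.mem v, ?_⟩,
      fun l v hv c1 c2 => ?_⟩, fun l => ?_, fun l' l hl => ?_, fun l => ?_⟩ i p₂ N₂ ?_ hN
  · rw [abs_le]
    constructor <;> linarith [r1.1, r1.2, r2.1, r2.2]
  · linarith [r1.2]
  · rw [abs_sub_comm]
    exact hgap v (hin v c1 c2)
  · have h2 := k3 (some l) (v - sh) (by
      rw [show v - sh - W = v - x by rw [hx]; ring]
      exact hin v c1 c2)
    rw [hn]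
    simp only
    refine le_trans (le_of_eq ?_) (h2.trans (by linarith))
    congr 2
    unfold nJ
    simp only
    rw [sub_add_cancel, hp.of_mem hv]
  · have h1 := (k1 (some l)).2
    rw [hn]
    simp only
    linarith
  · have h1 := k2 (some l') (some l) hl
    rw [hn]
    simp only
    linarith
  · linarith [hp₁ l]
  · linarith

/-- **The conditions `FrT`** for a family with a change of charts. -/
theorem frq_J {q : Cmp m D} {s : Fin D → ℝ → ℝ} {G : Set ℝ} {Jm L K : ℝ}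
    (hpos : ∀ (τ : ℝ) (J : ℕ) (F : Fam m J) (A : F.Ω → Prop), S.St τ J F A → 0 < Pe F.p A)
    (hC : CCh S f y q s G Jm L K) (hF : FmJ S q s G) {sh A B : ℝ} {pG : ℝ → ℝ} (hp : NrG G pG)
    (hJ : 1 ≤ Jm) (hL : 0 ≤ L) (hK : 0 ≤ K) {M σ τ C₁ δ C0 : ℝ} (hM : 0 ≤ M) (hτ : 0 < τ)
    (hδ : 0 ≤ δ) (hσ : Jm * (2 * (δ + 2 * τ)) + 2 * L * τ ≤ σ)
    (hC0 : M + (2 * Jm + 3) * (δ + 2 * τ) + 2 * L * τ ≤ C0)
    (hC₁ : (δ + 2 * τ) + K * (M + 2 * (δ + 2 * τ) + 2 * L * τ) ≤ C₁) (hC01 : C0 ≤ C₁)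
    {qq : ℕ → ℚ} (hq : ∀ k, (qq k : ℝ) = C0 * (1 / 2) ^ k)
    {k₁ : ℕ} (hk₁ : ∀ k ≥ k₁, B + C0 * (1 / 2) ^ k + sh ≤ 1) :
    FrT S f (fun _ => y) (fun _ w N => qC q (fun i => s i (pG ((w : ℝ) + sh)))
      (pG ((w : ℝ) + sh)) (fun i => (N (some i) : ℝ))) qq (rkG D) (nJ q s sh G pG) sh A B M σ τ
      C₁ δ (Real.log 2) k₁ := by
  have hLτ : 0 ≤ 2 * L * τ := by positivity
  have hC00 : 0 ≤ C0 := le_trans (by positivity) hC0
  have hwin : ∀ k ≥ k₁, 0 ≤ qq k ∧ B + qq k + sh ≤ 1 := by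
    intro k hk
    have h1 : (0 : ℝ) ≤ qq k := by
      rw [hq]
      positivity
    refine ⟨by exact_mod_cast h1, ?_⟩
    rw [hq]
    exact hk₁ k hk
  -- the nearest window
  have hnear : ∀ (k : ℕ) (w v : ℚ) (N : Option (Fin D) → ℚ),
      Ok (rkG D) (nJ q s sh G pG) M σ τ C₁ k w N → |(v : ℝ) - w| ≤ δ * (1 / 2) ^ k →
      |pG ((v : ℝ) + sh) - (w + sh)| ≤ (δ + 2 * τ) * (1 / 2) ^ k := by
    intro k w v N hok hv
    obtain ⟨r, hr⟩ : ∃ r : ℝ, r = (1 / 2) ^ k := ⟨_, rfl⟩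
    have hr0 : 0 < r := by rw [hr]; positivity
    have k3 := hok.2.2
    rw [← hr] at k3 hv ⊢
    have hτr : 0 < τ * r := mul_pos hτ hr0
    have hδr : 0 ≤ δ * r := mul_nonneg hδ hr0.le
    have hCr : δ * r + 2 * (τ * r) ≤ C₁ * r := by
      have h1 : δ + 2 * τ ≤ C₁ := by
        refine le_trans ?_ hC₁
        have : 0 ≤ K * (M + 2 * (δ + 2 * τ) + 2 * L * τ) := by positivity
        linarith
      have := mul_le_mul_of_nonneg_right h1 hr0.le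
      linarith
    have hgap := gap_of hp (w := (w : ℝ) + sh) (X := C₁ * r) (T := τ * r) (by linarith)
      (by linarith) (fun v' hv' => by
        have h1 := k3 none (v' - sh) (by
          rw [show v' - sh - w = v' - (w + sh) by ring]
          exact hv')
        unfold nJ at h1
        simp only at h1
        rw [sub_add_cancel] at h1
        exact h1) ((v : ℝ) + sh) (by
        rw [show (v : ℝ) + sh - (w + sh) = v - w by ring]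
        linarith)
    rw [abs_le] at hgap hv ⊢
    constructor <;> linarith [hgap.1, hgap.2, hv.1, hv.2]
  refine ⟨hwin, ?_, ?_, ?_, ?_⟩
  · intro k _ w N _ _ _
    exact hF.exs (hp.mem _) (fun _ => le_rfl) _
  · intro k hk w N N' _ b _ r' hNN
    have hδr : 0 ≤ δ * (1 / 2 : ℝ) ^ k := by positivity
    have hτr : 0 ≤ τ * (1 / 2 : ℝ) ^ k := by positivity
    have h1 := hnear k w w N' r' (by rw [sub_self, abs_zero]; exact hδr)
    exact few_pi hpos fun i => few_okJ hC hp hJ hL hK hM hτ hδ hσ hC0 hC₁ hC01 (hq k)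
      (hp.mem _) (hp.mem _) h1 h1 (by push_cast; linarith [(hwin k hk).2]) r'
      (fun l => by linarith) i (by linarith)
      (show (N (some i) : ℝ) ≤ N' (some i) from by exact_mod_cast hNN (some i))
  · intro k hk w N N' _ b r _ hNN
    have hδr : 0 ≤ δ * (1 / 2 : ℝ) ^ k := by positivity
    have hτr : 0 ≤ τ * (1 / 2 : ℝ) ^ k := by positivity
    have h1 := hnear k w w N r (by rw [sub_self, abs_zero]; exact hδr)
    have h2 : FewC S f (vg (((w + qq k : ℚ) : ℝ) + sh)) y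
        (qC q (fun i => s i (pG ((w : ℝ) + sh))) (pG ((w : ℝ) + sh)) (fun i => (N (some i) : ℝ)))
        (qC q (fun i => s i (pG ((w : ℝ) + sh))) (pG ((w : ℝ) + sh)) (fun i => (N' (some i) : ℝ)))
        (∑ i : Fin D, Real.log 2 * ((N' (some i) : ℝ) - N (some i))) :=
      fewC_pi hpos fun i => few_more hpos (show (N (some i) : ℝ) ≤ N' (some i) from by
        exact_mod_cast hNN (some i))
        (few_okJ hC hp hJ hL hK hM hτ hδ hσ hC0 hC₁ hC01 (hq k) (hp.mem _) (hp.mem _) h1 h1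
          (by push_cast; linarith [(hwin k hk).2]) r (fun l => by linarith) i (by linarith)
          le_rfl)
    refine FewC.mono ?_ h2
    rw [Fintype.sum_option, mul_add, Finset.mul_sum]
    have h3 : (0 : ℝ) ≤ Real.log 2 * ((N' none : ℝ) - N none) := by
      refine mul_nonneg (Real.log_nonneg one_le_two) ?_
      have : (N none : ℝ) ≤ N' none := by exact_mod_cast hNN none
      linarith
    linarith
  · intro k hk w w' N _ hww b hd _ r'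
    have hδr : 0 ≤ δ * (1 / 2 : ℝ) ^ k := by positivity
    have hτr : 0 ≤ τ * (1 / 2 : ℝ) ^ k := by positivity
    have hww' : (w : ℝ) ≤ w' := by exact_mod_cast hww
    have h1 := hnear k w' w' N r' (by rw [sub_self, abs_zero]; exact hδr)
    have h2 := hnear k w' w N r' (by
      rw [abs_le]
      constructor <;> linarith)
    exact ⟨few_pi hpos fun i => few_okJ hC hp hJ hL hK hM hτ hδ hσ hC0 hC₁ hC01 (hq k)
        (hp.mem _) (hp.mem _) h2 h1 (by push_cast; linarith [(hwin k hk).2]) r'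
        (fun l => by linarith) i (by linarith) le_rfl,
      few_pi hpos fun i => few_okJ hC hp hJ hL hK hM hτ hδ hσ hC0 hC₁ hC01 (hq k)
        (hp.mem _) (hp.mem _) h1 h2 (by push_cast; linarith [(hwin k hk).2]) r'
        (fun l => by linarith) i (by linarith) le_rfl⟩

/-! ### The big scale -/

/-- **The set `G` has small gaps and the natural digits are nearly constant** at the distance `t`
before the window `v`. -/
def FltJ (q : Cmp m D) (s : Fin D → ℝ → ℝ) (G : Set ℝ) (n : Fin D → ℝ) (K ε v t : ℝ) : Prop :=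
  Reg q s G n (ε * t) (v - (K + 2) * t) v

/-- **One step.** -/
theorem sup_stepJ {q : Cmp m D} {s : Fin D → ℝ → ℝ} {G : Set ℝ} {Jm L K : ℝ}
    (hC : CCh S f y q s G Jm L K) (hJ : 1 ≤ Jm) (hL : 0 ≤ L) (hK : 0 ≤ K) {a b e θ ε : ℝ}
    (ha : 0 ≤ a) (hb0 : 0 ≤ b) (he : 0 ≤ e) (hθ : 0 ≤ θ) (hε : 0 < ε)
    (hb : e + Jm * (θ + 2 * ε) + L * ε ≤ b)
    (hab : ε + a + b * D + e + (Jm + 1) * (θ + 2 * ε) + L * ε ≤ 1)
    {v s₁ s₂ x₁ x₂ : ℝ} {n N : Fin D → ℝ} (hv : v ≤ 1) (hs : 0 < s₁) (hs2 : (1 - θ) * s₁ ≤ s₂)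
    (hs21 : s₂ ≤ s₁) (a1 : x₁ ∈ G) (a2 : x₂ ∈ G) (hx1 : |x₁ - (v - s₁)| ≤ ε * s₁)
    (hx2 : |x₂ - (v - s₂)| ≤ ε * s₁) (hfl : FltJ q s G n K ε v s₁)
    (hN : ∀ l : Fin D, (a + b * ((D : ℝ) - (l : ℕ))) * s₁ ≤ N l - n l ∧
      N l - n l ≤ (a + b * ((D : ℝ) - (l : ℕ))) * s₁ + e * s₁)
    (i : Fin D) {N₂ : ℝ} (hN₂ : N₂ - n i ≤ (a + b * ((D : ℝ) - (i : ℕ))) * s₂) :
    Few S f (vg v) y (qC q (fun l => s l x₁) x₁ N)
      (qJet m (q.I i) (q.k i) (q.j i) x₂ (s i x₂) N₂) := by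
  have hD0 : (0 : ℝ) ≤ D := Nat.cast_nonneg D
  have hεs : 0 < ε * s₁ := mul_pos hε hs
  have hθs : 0 ≤ θ * s₁ := mul_nonneg hθ hs.le
  have hes : 0 ≤ e * s₁ := mul_nonneg he hs.le
  have has : 0 ≤ a * s₁ := mul_nonneg ha hs.le
  have hbs0 : 0 ≤ b * s₁ := mul_nonneg hb0 hs.le
  have hbDs : 0 ≤ b * s₁ * D := mul_nonneg hbs0 hD0
  obtain ⟨ρ, hρ⟩ : ∃ ρ : ℝ, ρ = θ * s₁ + 2 * (ε * s₁) := ⟨_, rfl⟩
  have hρ0 : 0 ≤ ρ := by rw [hρ]; positivity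
  have hLε : 0 ≤ L * (ε * s₁) := mul_nonneg hL hεs.le
  have hJρ : ρ ≤ Jm * ρ := by nlinarith
  have hbs : e * s₁ + Jm * ρ + L * (ε * s₁) ≤ b * s₁ := by
    have := mul_le_mul_of_nonneg_right hb hs.le
    rw [hρ]
    linarith
  have habs : ε * s₁ + (a * s₁ + b * s₁ * D + e * s₁) + (Jm + 1) * ρ + L * (ε * s₁) ≤ s₁ := by
    have := mul_le_mul_of_nonneg_right hab hs.le
    rw [hρ]
    linarith
  rw [abs_le] at hx1 hx2
  unfold FltJ at hfl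
  obtain ⟨hgap, hflt⟩ := hfl
  have hlo : v - (K + 2) * s₁ ≤ x₁ - K * ((a * s₁ + b * s₁ * D + e * s₁) + ρ + L * (ε * s₁)) := by
    have h1 : (a * s₁ + b * s₁ * D + e * s₁) + ρ + L * (ε * s₁) ≤ s₁ := by linarith
    have h2 := mul_le_mul_of_nonneg_left h1 hK
    linarith
  refine hC v (a * s₁ + b * s₁ * D + e * s₁) (ε * s₁) ρ x₁ x₂ n N (fun l => s l x₁)
    ⟨hv, by positivity, hεs, a1, a2, ?_, ?_, ⟨fun x c1 c2 => hgap x (hlo.trans c1) c2,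
      fun l v' hv' c1 c2 => hflt l v' hv' (hlo.trans c1) c2⟩, fun l => ?_, fun l' l hl => ?_,
      fun l => by linarith⟩ i (s i x₂) N₂ (by linarith) ?_
  · rw [abs_le]
    constructor <;> linarith
  · linarith
  · have h1 := (hN l).2
    have h2 : (0 : ℝ) ≤ b * s₁ * ((l : ℕ) : ℝ) := mul_nonneg hbs0 (Nat.cast_nonneg _)
    linarith
  · have h1 := (hN l).2
    have h2 := (hN l').1
    have h3 : ((l' : ℕ) : ℝ) + 1 ≤ ((l : ℕ) : ℝ) := by exact_mod_cast hl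
    have h4 := mul_le_mul_of_nonneg_left h3 hbs0
    linarith
  · have h1 := (hN i).1
    have h2 : ((i : ℕ) : ℝ) + 1 ≤ D := by exact_mod_cast i.2
    have h3 : 0 ≤ a + b * ((D : ℝ) - (i : ℕ)) := by
      have : 0 ≤ b * ((D : ℝ) - (i : ℕ)) := mul_nonneg hb0 (by linarith)
      linarith
    have h4 := mul_le_mul_of_nonneg_left hs21 h3
    linarith

/-- **The jets at a small scale from those at a big scale.** -/
theorem sup_chainJ {q : Cmp m D} {s : Fin D → ℝ → ℝ} {G : Set ℝ} {Jm L K : ℝ}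
    (hpos : ∀ (τ : ℝ) (J : ℕ) (F : Fam m J) (A : F.Ω → Prop), S.St τ J F A → 0 < Pe F.p A)
    (hF : FmJ S q s G)
    (hC : CCh S f y q s G Jm L K) (hJ : 1 ≤ Jm) (hL : 0 ≤ L) (hK : 0 ≤ K) {a b e θ ε : ℝ}
    (ha : 0 ≤ a) (hb0 : 0 ≤ b) (he : 0 ≤ e) (hθ : 0 ≤ θ) (hε : 0 < ε)
    (hb : e + Jm * (θ + 2 * ε) + L * ε ≤ b)
    (hab : ε + a + b * D + e + (Jm + 1) * (θ + 2 * ε) + L * ε ≤ 1)
    {v s' x' : ℝ} {n : Fin D → ℝ} (hv : v ≤ 1) (hs' : 0 < s') (hx'G : x' ∈ G)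
    (hx' : |x' - (v - s')| ≤ ε * s') (i : Fin D) {N₂ : ℝ}
    (hN₂ : N₂ - n i ≤ (a + b * ((D : ℝ) - (i : ℕ))) * s') (k : ℕ) :
    ∀ (s₀ x₀ : ℝ) (N : Fin D → ℝ), s' ≤ s₀ → (1 - θ) ^ k * s₀ ≤ s' →
    (∀ t, s' ≤ t → t ≤ s₀ → FltJ q s G n K ε v t) → x₀ ∈ G → |x₀ - (v - s₀)| ≤ ε * s₀ →
    (∀ l : Fin D, (a + b * ((D : ℝ) - (l : ℕ))) * s₀ ≤ N l - n l ∧
      N l - n l ≤ (a + b * ((D : ℝ) - (l : ℕ))) * s₀ + e * s₀) →
    Few S f (vg v) y (qC q (fun l => s l x₀) x₀ N)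
      (qJet m (q.I i) (q.k i) (q.j i) x' (s i x') N₂) := by
  have hD0 : (0 : ℝ) ≤ D := Nat.cast_nonneg D
  have one : ∀ (s₀ x₀ : ℝ) (N : Fin D → ℝ), s' ≤ s₀ → (1 - θ) * s₀ ≤ s' →
      (∀ t, s' ≤ t → t ≤ s₀ → FltJ q s G n K ε v t) → x₀ ∈ G → |x₀ - (v - s₀)| ≤ ε * s₀ →
      (∀ l : Fin D, (a + b * ((D : ℝ) - (l : ℕ))) * s₀ ≤ N l - n l ∧
        N l - n l ≤ (a + b * ((D : ℝ) - (l : ℕ))) * s₀ + e * s₀) →
      Few S f (vg v) y (qC q (fun l => s l x₀) x₀ N)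
        (qJet m (q.I i) (q.k i) (q.j i) x' (s i x') N₂) := by
    intro s₀ x₀ N h1 h2 h3 h4 h5 h6
    exact sup_stepJ hC hJ hL hK ha hb0 he hθ hε hb hab hv (hs'.trans_le h1) h2 h1 h4 hx'G h5
      (hx'.trans (mul_le_mul_of_nonneg_left h1 hε.le)) (h3 s₀ h1 le_rfl) h6 i hN₂
  induction k with
  | zero =>
    intro s₀ x₀ N h1 h2 h3 h4 h5 h6
    rw [pow_zero, one_mul] at h2
    have h7 : 0 ≤ θ * s₀ := mul_nonneg hθ (hs'.trans_le h1).le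
    exact one s₀ x₀ N h1 (by linarith) h3 h4 h5 h6
  | succ k ih =>
    intro s₀ x₀ N h1 h2 h3 h4 h5 h6
    rcases le_or_gt ((1 - θ) * s₀) s' with h7 | h7
    · exact one s₀ x₀ N h1 h7 h3 h4 h5 h6
    have hs0 : 0 < s₀ := hs'.trans_le h1
    have h7a : 0 ≤ θ * s₀ := mul_nonneg hθ hs0.le
    obtain ⟨s₁, hs₁⟩ : ∃ s₁ : ℝ, s₁ = (1 - θ) * s₀ := ⟨_, rfl⟩
    rw [← hs₁] at h7
    have h8 : s₁ ≤ s₀ := by rw [hs₁]; linarith
    have hs10 : 0 < s₁ := hs'.trans h7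
    have hKs : 0 ≤ K * s₁ := mul_nonneg hK hs10.le
    obtain ⟨x₁, hx1, hx1'⟩ := (h3 s₁ h7.le h8).gap (v - s₁) (by linarith) (by linarith)
    obtain ⟨N₁, hN₁⟩ : ∃ N₁ : Fin D → ℝ, N₁ = fun l => n l + (a + b * ((D : ℝ) - (l : ℕ))) * s₁ :=
      ⟨_, rfl⟩
    have hmid : Exs S (qC q (fun l => s l x₁) x₁ N₁) := hF.exs hx1 (fun _ => le_rfl) _
    refine Few.trans hpos hmid (few_pi hpos fun l => ?_) (ih s₁ x₁ N₁ h7.le ?_
      (fun t c1 c2 => h3 t c1 (c2.trans h8)) hx1 hx1' fun l => ?_)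
    · refine sup_stepJ hC hJ hL hK ha hb0 he hθ hε hb hab hv hs0 (by rw [hs₁]) h8 h4 hx1 h5
        (hx1'.trans (mul_le_mul_of_nonneg_left h8 hε.le)) (h3 s₀ h1 le_rfl) h6 l ?_
      rw [hN₁]
      simp only
      linarith
    · rw [hs₁, ← mul_assoc, ← pow_succ]
      exact h2
    · rw [hN₁]
      simp only
      have h9 : 0 ≤ e * s₁ := mul_nonneg he hs10.le
      constructor <;> linarith

end Pool.FRJ
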