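import Pool.Agent.H89.FRJ.Fra
import Pool.Agent.H91.FR.QpG

/-!
# The velocities of a chain and an own jet of integer order of one more place are free

`FreeJt`: the own velocities of the places `c 0, .., c (d - 1)` and the own jet of the order `j` of
the place `c d` over them are free of the later records. `freeJt_all`: it holds at almost every
window of a closed set of good windows at which the places before `d` have the slope one and the
place `d` has the slope `j`, for all small scales. `FjQ`: the same as a property of a window, for the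
joints over `VoidQH`, `CelQH`; `aePG_fj`, `her_fj`. `FjQ.slope`: the slope near a window of the slope
`j` is `j`.
-/

set_option autoImplicit false

namespace Pool.FRJ

open Finset Real MvPolynomial
open Pool.Agent.H49.Ent Pool.Agent.H32.Dense Pool.STK Pool.KA Pool.KSAT Pool.K2S Pool.PB Pool.GEN
open Pool.S6C Pool.RCD Pool.LA91 Pool.PKG Pool.CHT Pool.GRW
open Pool.TOP (TopS)

variable {m : ℕ} {α γ : ∀ J : ℕ, Fam m J → Type}
  {f : ∀ (J : ℕ) (F : Fam m J), F.Ω → α J F} {y : ∀ (J : ℕ) (F : Fam m J), F.Ω → γ J F}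
  {S S' : PCl m}

/-- **The orders**: one for the places before `d`, `j` for the place `d`. -/
def jo (d j i : ℕ) : ℕ := if i < d then 1 else j

/-- **The velocities of the places `c 0, .., c (d - 1)` and the jet of the order `j` of the place
`c d`**, over charts of the window `w`, of the precisions `p`, to `N` digits. -/
noncomputable def qJt (m : ℕ) (c : ℕ → Fin m) (d j : ℕ) (w : ℝ) (p N : Fin (d + 1) → ℝ) :
    Qt m (Fin (d + 1) → ℤ) :=
  Qt.pi fun i => qJet m ((range (i : ℕ)).image c) (c i) (jo d j i) w (p i) (N i)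

/-- **The staircase** of the digits, natural digits at the window `g`. -/
structure StJt (d j : ℕ) (sn : ℕ → ℝ → ℝ) (g : ℝ) (C : ℕ) (σ : ℚ) (k : ℕ)
    (P : Fin (d + 1) → ℚ) : Prop where
  lo : ∀ i : Fin (d + 1), sn i g - jo d j i * g ≤ P i
  hi : ∀ i : Fin (d + 1), (P i : ℝ) ≤ sn i g - jo d j i * g + C * (1 / 2) ^ k
  st : ∀ l i : Fin (d + 1), l < i → (P i : ℝ) - (sn i g - jo d j i * g) + 2 * σ * (1 / 2) ^ k ≤
    P l - (sn l g - jo d j l * g)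

/-- **The own velocities of the places before `d` and the own jet of the order `j` of the place `d`
are free of the later records** at the scale `2 ^ (-k)`. The charts of the window `b` are precise to
the natural digits minus `σ / T 2 ^ (-k)`, `T = 200 (d + j + 2)`. -/
def FreeJt (S : PCl m) (f : ∀ (J : ℕ) (F : Fam m J), F.Ω → α J F)
    (y : ∀ (J : ℕ) (F : Fam m J), F.Ω → γ J F) (c : ℕ → Fin m) (d j : ℕ) (sn : ℕ → ℝ → ℝ)
    (G : Set ℝ) (g : ℝ) (C : ℕ) (σ : ℚ) (κ : ℝ) (k : ℕ) : Prop :=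
  ∀ (P : Fin (d + 1) → ℚ) (b w w' : ℝ), StJt d j sn g C σ k P → b ∈ G →
      g - C * (1 / 2) ^ k ≤ b → b + lagG C (d + 1) k ≤ w → w ≤ w' → w' ≤ g + lstG C (d + 1) k →
      ∃ k₂ : ℝ, 0 < k₂ ∧ ∃ e₀ : ℝ, 0 < e₀ ∧ ∀ K : ℕ, Bas S (fun J F A =>
        ∀ (V : Type) (z : F.Ω → V) (V' : Type) (z' : F.Ω → V'),
        Mx f (vg w) k₂ F A z → Mx f (vg w') k₂ F A z' →
        ∀ u, (qJt m c d j b
          (fun i => sn i b - (σ : ℝ) / (200 * ((d : ℝ) + j + 2)) * (1 / 2) ^ k)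
          (fun i => (P i : ℝ))).P K e₀ J F A u →
        CH (Pool.Agent.H49.Ent.cond F.p A True) u (fun ω => (z ω, y J F ω)) ≤
          CH (Pool.Agent.H49.Ent.cond F.p A True) u (fun ω => (z' ω, y J F ω)) +
            κ * (1 / 2) ^ k * J)

theorem FreeJt.sub {c : ℕ → Fin m} {d j : ℕ} {sn : ℕ → ℝ → ℝ} {G : Set ℝ} {g : ℝ} {C : ℕ} {σ : ℚ}
    {κ : ℝ} {k : ℕ}
    (hs : ∀ (τ : ℝ) (J : ℕ) (F : Fam m J) (A : F.Ω → Prop), S'.St τ J F A → S.St τ J F A)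
    (h : FreeJt S f y c d j sn G g C σ κ k) : FreeJt S' f y c d j sn G g C σ κ k := by
  intro P b w w' a1 a2 a3 a4 a5 a6
  obtain ⟨k₂, hk₂, e₀, he₀, h1⟩ := h P b w w' a1 a2 a3 a4 a5 a6
  exact ⟨k₂, hk₂, e₀, he₀, fun K => (h1 K).sub hs⟩

theorem FreeF.jt {c : ℕ → Fin m} {d j : ℕ} {sn : ℕ → ℝ → ℝ} {G : Set ℝ} {g : ℝ} {C : ℕ} {σ : ℚ}
    {κ : ℝ} {k : ℕ}
    (h : FreeF S f y (qch c d j) (fun i => sn i) G (200 * ((d : ℝ) + j + 2)) g C σ κ k) :
    FreeJt S f y c d j sn G g C σ κ k := by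
  intro P b w w' a1 a2 a3 a4 a5 a6
  exact h P b w w' ⟨a1.lo, a1.hi, a1.st⟩ a2 a3 a4 a5 a6

/-- The natural labels of the chain. -/
theorem fmJ_chain {c : ℕ → Fin m} {d j : ℕ} {sn : ℕ → ℝ → ℝ} {G : Set ℝ}
    (h : ChG S c (d + 1) sn G) : FmJ S (qch c d j) (fun i => sn i) G where
  w0 w hw := by
    obtain ⟨u₁, rd, -, h1⟩ := h.ch w hw
    exact h1.w0
  w1 w hw := by
    obtain ⟨u₁, rd, -, h1⟩ := h.ch w hw
    exact h1.u0
  att w hw i := by
    obtain ⟨u₁, rd, h0, h1⟩ := h.ch w hw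
    exact ⟨rd i, h0 i i.2, h1.att i (Nat.zero_le _) i.2⟩

/-- **The velocities of a chain of places of slope one and the own jet of the order `j` of one more
place of slope `j` are free of the later records**, at almost every window, for all small scales; one
subclass for all lengths and all orders. -/
theorem freeJt_all {C₀ : ℝ} (hS : S.Ne)
    (hpos : ∀ (τ : ℝ) (J : ℕ) (F : Fam m J) (A : F.Ω → Prop), S.St τ J F A → 0 < Pe F.p A)
    (htm : TmC S C₀) {c : ℕ → Fin m} {A B : ℝ} {sn : ℕ → ℝ → ℝ} {G : Set ℝ} (hG : IsClosed G)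
    (hB : B ≤ 1) (N : ℕ) (hW : ∀ d < N, ChG S c d sn G)
    (hf : ∀ (J : ℕ) (F : Fam m J), ∃ φ : α J F → PtT F, ∀ ω, ptr F J ω = φ (f J F ω))
    (hy : Kn ((range 0).image c) 1 1 y) {η : ℚ → ℝ}
    (hη : ∀ w : ℚ, RNum S f (vg (w : ℝ)) (η w)) :
    ∃ S' : PCl m, S'.Ne ∧
      (∀ (τ : ℝ) (J : ℕ) (F : Fam m J) (A : F.Ω → Prop), S'.St τ J F A → S.St τ J F A) ∧
      ∀ᵐ g : ℝ, g ∈ Set.Ioo A B → g ∈ G → ∀ d j : ℕ, d + 1 < N →
      (∀ i < d, HasDerivWithinAt (fun x => sn i x - x) 0 G g) →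
      HasDerivWithinAt (fun x => sn d x - j * x) 0 G g →
      ∀ (C : ℕ) (σ : ℚ), 0 < σ → σ ≤ 1 → ∀ κ : ℝ, 0 < κ → ∃ K : ℕ, ∀ k ≥ K,
        FreeJt S' f y c d j sn G g C σ κ k := by
  classical
  have hG0 : ∀ d : ℕ, d + 1 < N → ∀ w ∈ G, 0 ≤ w ∧ w < 1 := by
    intro d hd w hw
    obtain ⟨u₁, rd, -, h1⟩ := (hW (d + 1) hd).ch w hw
    exact ⟨h1.w0, h1.u0⟩
  obtain ⟨S', h1, h2, h3⟩ := free_allJ (X := {x : ℕ × ℕ // x.1 + 1 < N}) hS hpos htm
    (D := fun x => x.1.1 + 1) (q := fun x => qch c x.1.1 x.1.2) (s := fun _ i => sn i)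
    (sh := 0) (A := A) (B := B) (K := fun x => (x.1.1 : ℝ) + 1)
    (T := fun x => 200 * ((x.1.1 : ℝ) + x.1.2 + 2)) (Jm := fun x => (x.1.2 : ℝ) + 1)
    (Lm := fun x => 7 * (x.1.1 : ℝ) + 20) hG
    (fun x => fmJ_chain (hW (x.1.1 + 1) x.2))
    (fun x => cch_chain htm hpos (hW x.1.1 (by have := x.2; omega)) hf hy
      (fun w hw => (hG0 x.1.1 x.2 w hw).1) (fun w hw => (hG0 x.1.1 x.2 w hw).2)
      (by
        have : (0 : ℝ) ≤ x.1.2 := Nat.cast_nonneg _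
        linarith) (by linarith))
    (fun x => by
      have : (0 : ℝ) ≤ x.1.2 := Nat.cast_nonneg _
      linarith) (fun x => by positivity) (fun x => by positivity)
    (fun x => by
      have e1 : (0 : ℝ) ≤ x.1.1 := Nat.cast_nonneg _
      have e2 : (0 : ℝ) ≤ x.1.2 := Nat.cast_nonneg _
      linarith) hB (η := η) (fun w _ _ => by
        rw [add_zero]
        exact hη w)
  refine ⟨S', h1, h2, ?_⟩
  filter_upwards [h3] with g hg hAB hgG d j hd hder hderj C σ hσ0 hσ1 κ hκ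
  obtain ⟨Kk, hKk⟩ := hg hAB hgG ⟨(d, j), hd⟩ (fun i => by
    unfold qch
    simp only
    split_ifs with h4
    · have := hder i h4
      simpa using this
    · have h5 : (i : ℕ) = d := by
        have := i.2
        simp only at this
        omega
      rw [h5]
      exact hderj) C σ hσ0 hσ1 κ hκ
  exact ⟨Kk, fun k hk => (hKk k hk).jt⟩

/-! ### The property of a window -/

/-- **The velocities of a chain and the own jet of the order `j` of one more place**, as a property of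
a window `x`. The parameters: the length `d` of the chain, the order `j`, the constant of the windows,
the step of the digits, the error. -/
structure FjQ {n : ℕ} (p : (ℕ × ℕ) × ℕ × ℚ × ℚ) (k₀ : ℕ) (S : PCl n)
    (P : List (Fin n) × Fin n → ℝ → ℝ → ℝ) (θ : ℝ) (c : ℕ → Fin n) (Pt : ℝ → ℝ → ℝ)
    (r : ℝ → ℝ) (L T : ℕ → ℝ → ℝ → ℝ) (κ : ℕ → Kg) (G : Set ℝ) (x : ℝ) : Prop where
  /-- The slope of the place `d` at `x` is `j` or far from `j`, for the flatness at `x`. -/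
  dia : p.1.1 < n → ∃ (s : ℝ) (i : ℕ), i ≤ k₀ ∧ HasDerivAt (fun w => L p.1.1 w w) s x ∧
    (s = p.1.2 ∨ (1 / 2 : ℝ) ^ i ≤ |s - p.1.2|) ∧
    ∀ w : ℝ, |w - x| ≤ (1 / 2) ^ k₀ →
      |L p.1.1 w w - L p.1.1 x x - s * (w - x)| ≤ (1 / 2) ^ (i + 2) * |w - x|
  free : p.1.1 + 1 < n → (∀ l < p.1.1, κ l = .one) →
    HasDerivAt (fun w => L p.1.1 w w) p.1.2 x → 0 < p.2.2.1 → p.2.2.1 ≤ 1 → 0 < p.2.2.2 →
    ∀ k ≥ k₀, FreeJt S (fun J F => ptr F J) (fun _ F => F.W) c p.1.1 p.1.2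
      (fun l w => L l w w) G x p.2.1 p.2.2.1 p.2.2.2 k

/-- **The property `FjQ` holds at almost every window**, in a subclass. -/
theorem aePG_fj (n : ℕ) : AePG n (FjQ : PropG n ((ℕ × ℕ) × ℕ × ℚ × ℚ)) := by
  intro hn S P r P' Λ PB PQ H hTop hF o G hG hGs
  obtain ⟨al, g₀, s, d', e', K₁, N₁, hal, hg₀, hC⟩ := H.cl
  have htm : TmC S 6 := Pool.GEN.N83.clx_tmc hC
  have hM : Bas S (fun J F A => (cnt F.p (ptr F J) A : ℝ) ≤ Real.exp ((4 * n + 1) * J)) :=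
    Bas.mono 0 hC.cnt fun J _ F A h => h J le_rfl
  have hW : ∀ d < n, ChG S (cc hn o.1.1) d (fun l w => LvL hn P P' o l w w) G :=
    fun d hd => gs_chG H.toPk hTop hF hGs (by omega)
  obtain ⟨S₁, a1, a2, η, hη⟩ := rnum_ptr hC.ne hC.pos hM
  obtain ⟨S₂, b1, b2, b3⟩ := freeJt_all (A := 0) (B := 1) a1
    (fun τ J F A h => hC.pos τ J F A (a2 τ J F A h))
    (fun τ J F A hτ h => htm τ J F A hτ (a2 τ J F A h)) hG le_rfl n
    (fun d hd => (hW d hd).sub a2) (fun J F => ⟨fun x => x, fun _ => rfl⟩) kn_W hη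
  refine ⟨S₂, b1, fun τ J F A h => a2 τ J F A (b2 τ J F A h), ?_⟩
  filter_upwards [b3, H.toPkT.dia_all H.pble hTop hF] with g h1 hdia hg κ hκ p
  have ho := hGs hg
  obtain ⟨α, Q, c', F⟩ := H.toPk.fac hTop hF ho
  obtain ⟨⟨d, j⟩, C, σ, κ'⟩ := p
  -- the slope
  have hslope : ∃ K₀ : ℕ, ∀ k₀ ≥ K₀, d < n → ∃ (s : ℝ) (i : ℕ), i ≤ k₀ ∧
      HasDerivAt (fun w => LvL hn P P' o d w w) s g ∧
      (s = j ∨ (1 / 2 : ℝ) ^ i ≤ |s - j|) ∧
      ∀ w : ℝ, |w - g| ≤ (1 / 2) ^ k₀ → |LvL hn P P' o d w w - LvL hn P P' o d g g -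
        s * (w - g)| ≤ (1 / 2) ^ (i + 2) * |w - g| := by
    by_cases hd : d < n
    · have h4 := (hdia o ho d (by omega)).1.hasDerivAt
      obtain ⟨s, hs⟩ : ∃ s, s = deriv (fun a => LvL hn P P' o d a a) g := ⟨_, rfl⟩
      rw [← hs] at h4
      obtain ⟨i, hi⟩ : ∃ i : ℕ, s = j ∨ (1 / 2 : ℝ) ^ i ≤ |s - j| := by
        by_cases h5 : s = j
        · exact ⟨0, Or.inl h5⟩
        · obtain ⟨i, hi⟩ := exists_pow_lt_of_lt_one (abs_pos.2 (sub_ne_zero.2 h5))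
            (show (1 / 2 : ℝ) < 1 by norm_num)
          exact ⟨i, Or.inr hi.le⟩
      have h6 := (hasDerivAt_iff_isLittleO.1 h4).def (c := (1 / 2 : ℝ) ^ (i + 2)) (by positivity)
      obtain ⟨ρ, hρ, h7⟩ := Metric.eventually_nhds_iff.1 h6
      obtain ⟨K₀, hK₀⟩ := exists_pow_lt_of_lt_one hρ (show (1 / 2 : ℝ) < 1 by norm_num)
      refine ⟨max i K₀, fun k₀ hk₀ _ => ⟨s, i, (le_max_left _ _).trans hk₀, h4, hi,
        fun w hw => ?_⟩⟩
      have h8 : ((1 : ℝ) / 2) ^ k₀ ≤ (1 / 2) ^ K₀ :=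
        pow_le_pow_of_le_one (by norm_num) (by norm_num) ((le_max_right _ _).trans hk₀)
      have h9 := h7 (y := w) (by
        rw [Real.dist_eq]
        linarith)
      rw [Real.norm_eq_abs, Real.norm_eq_abs, smul_eq_mul, mul_comm (w - g) s] at h9
      exact h9
    · exact ⟨0, fun _ _ h => absurd h hd⟩
  obtain ⟨K₀, hK₀⟩ := hslope
  have key : ∃ K₁ : ℕ, d + 1 < n → (∀ l < d, κ l = .one) →
      HasDerivAt (fun w => LvL hn P P' o d w w) j g → 0 < σ → σ ≤ 1 → 0 < κ' →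
      ∀ k ≥ K₁, FreeJt S₂ (fun J F => ptr F J) (fun _ F => F.W) (cc hn o.1.1) d j
        (fun l w => LvL hn P P' o l w w) G g C σ κ' k := by
    by_cases hall : d + 1 < n ∧ (∀ l < d, κ l = .one) ∧
        HasDerivAt (fun w => LvL hn P P' o d w w) j g ∧ 0 < σ ∧ σ ≤ 1 ∧ 0 < κ'
    · obtain ⟨hp, hone, hdj, hσ0, hσ1, hκ0⟩ := hall
      obtain ⟨K₁, hK₁⟩ := h1 ⟨F.g0, F.g1⟩ hg d j hp (fun i hi => by
        have h2 := hκ i (by omega)
        rw [hone i hi] at h2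
        have h3 : deriv (fun a => LvL hn P P' o i a a) g = 1 := h2
        have h4 := (hdia o ho i (by omega)).1.hasDerivAt
        rw [h3] at h4
        have h5 := h4.sub (hasDerivAt_id g)
        rw [sub_self] at h5
        exact h5.hasDerivWithinAt) (by
        have h5 := hdj.sub ((hasDerivAt_id g).const_mul (j : ℝ))
        rw [mul_one, sub_self] at h5
        exact h5.hasDerivWithinAt) C σ hσ0 hσ1 κ' (by exact_mod_cast hκ0)
      exact ⟨K₁, fun _ _ _ _ _ _ => hK₁⟩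
    · exact ⟨0, fun e1 e2 e3 e4 e5 e6 => absurd ⟨e1, e2, e3, e4, e5, e6⟩ hall⟩
  obtain ⟨K₁, hK₁⟩ := key
  exact ⟨max K₀ K₁, hK₀ _ (le_max_left _ _), fun e1 e2 e3 e4 e5 e6 k hk =>
    hK₁ e1 e2 e3 e4 e5 e6 k ((le_max_right _ _).trans hk)⟩

/-- The property passes to subclasses. -/
theorem her_fj (n : ℕ) : HerQ (FjQ : PropG n ((ℕ × ℕ) × ℕ × ℚ × ℚ)) :=
  fun _ _ _ _ _ _ _ _ _ _ _ _ _ _ hs h =>
    ⟨h.dia, fun e1 e2 e3 e4 e5 e6 k hk => (h.free e1 e2 e3 e4 e5 e6 k hk).sub hs⟩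

/-- **The slope near a window of the slope `j`** is `j`, at the points with the property. -/
theorem FjQ.slope {n : ℕ} {p : (ℕ × ℕ) × ℕ × ℚ × ℚ} {k₀ : ℕ} {S : PCl n}
    {P : List (Fin n) × Fin n → ℝ → ℝ → ℝ} {θ : ℝ} {c : ℕ → Fin n} {Pt : ℝ → ℝ → ℝ}
    {r : ℝ → ℝ} {L T : ℕ → ℝ → ℝ → ℝ} {κ : ℕ → Kg} {G : Set ℝ} {g : ℝ} (hn : p.1.1 < n)
    (hg : HasDerivAt (fun w => L p.1.1 w w) p.1.2 g) : ∃ ρ : ℝ, 0 < ρ ∧ ∀ x : ℝ, |x - g| ≤ ρ →
      FjQ p k₀ S P θ c Pt r L T κ G x → HasDerivAt (fun w => L p.1.1 w w) p.1.2 x := by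
  obtain ⟨⟨d, j⟩, C, σ, κ'⟩ := p
  simp only at hn hg ⊢
  have h6 := (hasDerivAt_iff_isLittleO.1 hg).def (c := (1 / 2 : ℝ) ^ (k₀ + 4)) (by positivity)
  obtain ⟨ρ, hρ, h7⟩ := Metric.eventually_nhds_iff.1 h6
  obtain ⟨lam, hlam⟩ : ∃ lam : ℝ, lam = min (ρ / 4) ((1 / 2) ^ k₀) := ⟨_, rfl⟩
  have hl0 : 0 < lam := by rw [hlam]; positivity
  have hl1 : lam ≤ ρ / 4 := by rw [hlam]; exact min_le_left _ _
  have hl2 : lam ≤ (1 / 2) ^ k₀ := by rw [hlam]; exact min_le_right _ _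
  refine ⟨lam, hl0, fun x hx hQ => ?_⟩
  obtain ⟨s, i, hi, hs, hsj, hfl⟩ := hQ.dia hn
  simp only at hs hsj hfl
  rcases hsj with rfl | hsj
  · exact hs
  exfalso
  have e1 := hfl (x + lam) (by
    rw [add_sub_cancel_left, abs_of_pos hl0]
    exact hl2)
  rw [add_sub_cancel_left, abs_of_pos hl0] at e1
  have hx' := abs_le.1 hx
  have e2 := h7 (y := x) (by
    rw [Real.dist_eq]
    linarith)
  have e3 := h7 (y := x + lam) (by
    rw [Real.dist_eq, abs_lt]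
    constructor <;> linarith)
  rw [Real.norm_eq_abs, Real.norm_eq_abs, smul_eq_mul] at e2 e3
  have e4 : |x + lam - g| ≤ 2 * lam := by
    rw [abs_le]
    constructor <;> linarith
  have hq0 : (0 : ℝ) < (1 / 2) ^ (k₀ + 4) := by positivity
  have e5 := mul_le_mul_of_nonneg_left e4 hq0.le
  have e6 := mul_le_mul_of_nonneg_left hx hq0.le
  have hik : ((1 : ℝ) / 2) ^ k₀ ≤ (1 / 2) ^ i :=
    pow_le_pow_of_le_one (by norm_num) (by norm_num) hi
  have e7 : ((1 : ℝ) / 2) ^ (k₀ + 4) ≤ (1 / 2) ^ i / 16 := by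
    rw [pow_add]
    linarith
  have e8 : ((1 : ℝ) / 2) ^ (i + 2) = (1 / 2) ^ i / 4 := by
    rw [pow_add]
    ring
  rw [e8] at e1
  have hi0 : (0 : ℝ) < (1 / 2) ^ i := by positivity
  have e9 := mul_le_mul_of_nonneg_right e7 hl0.le
  have a1 := abs_le.1 e1
  have a2 := abs_le.1 (e2.trans e6)
  have a3 := abs_le.1 (e3.trans e5)
  have e10 : |(s - j) * lam| ≤ ((1 / 2) ^ i / 4 + 3 * ((1 / 2) ^ i / 16)) * lam := by
    rw [abs_le]
    constructor <;> linarith [a1.1, a1.2, a2.1, a2.2, a3.1, a3.2]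
  rw [abs_mul, abs_of_pos hl0] at e10
  have e11 := le_of_mul_le_mul_right e10 hl0
  linarith

end Pool.FRJ
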